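import Pool.Agent.H31.SW.TargetsG
import Pool.Agent.H29.DW.Tools

/-!
# Common lemmas for the modules ME and GD of the board swl_modules
-/

set_option autoImplicit false
set_option linter.unusedSectionVars false

open NumberField NumberField.InfinitePlace Set

namespace Pool.Agent.H63.SWL

open Pool.Agent.H25.HK Pool.Agent.H31.SW
open Pool.Agent.H29.DW (dg Rl wv Pos rv)

variable {K : Type} [Field K] [NumberField K]

/-! ### Products over the places -/

theorem PP_nonneg {R : InfinitePlace K → ℝ} (h : ∀ v, 0 ≤ R v) : 0 ≤ PP R :=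
  Finset.prod_nonneg fun v _ => pow_nonneg (h v) _

theorem PP_pos {R : InfinitePlace K → ℝ} (h : ∀ v, 0 < R v) : 0 < PP R :=
  Finset.prod_pos fun v _ => pow_pos (h v) _

theorem one_le_PP {R : InfinitePlace K → ℝ} (h : ∀ v, 1 ≤ R v) : 1 ≤ PP R := by
  have h1 : ∏ _v : InfinitePlace K, (1 : ℝ) ≤ ∏ v : InfinitePlace K, R v ^ v.mult :=
    Finset.prod_le_prod (fun _ _ => zero_le_one) fun v _ => one_le_pow₀ (h v)
  rwa [Finset.prod_const_one] at h1

theorem PP_mono {R R' : InfinitePlace K → ℝ} (h0 : ∀ v, 0 ≤ R v) (h : ∀ v, R v ≤ R' v) :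
    PP R ≤ PP R' :=
  Finset.prod_le_prod (fun v _ => pow_nonneg (h0 v) _) fun v _ => pow_le_pow_left₀ (h0 v) (h v) _

theorem PP_mul (R R' : InfinitePlace K → ℝ) : PP (fun v => R v * R' v) = PP R * PP R' := by
  unfold PP
  rw [← Finset.prod_mul_distrib]
  exact Finset.prod_congr rfl fun v _ => mul_pow _ _ _

theorem PP_const (a : ℝ) : PP (fun _ : InfinitePlace K => a) = a ^ Module.finrank ℚ K := by
  unfold PP
  rw [Finset.prod_pow_eq_pow_sum, InfinitePlace.sum_mult_eq]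

theorem PP_rpow {R : InfinitePlace K → ℝ} (h : ∀ v, 0 ≤ R v) (s : ℝ) :
    PP (fun v => R v ^ s) = PP R ^ s := by
  unfold PP
  rw [← Real.finsetProd_rpow _ _ fun v _ => pow_nonneg (h v) _]
  refine Finset.prod_congr rfl fun v _ => ?_
  rw [← Real.rpow_natCast, ← Real.rpow_natCast, ← Real.rpow_mul (h v), ← Real.rpow_mul (h v),
    mul_comm]

theorem PP_const_mul (a : ℝ) (R : InfinitePlace K → ℝ) :
    PP (fun v => a * R v) = a ^ Module.finrank ℚ K * PP R := by
  rw [PP_mul (fun _ => a) R, PP_const]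

theorem card_places : Fintype.card (InfinitePlace K) ≤ Module.finrank ℚ K := by
  rw [← InfinitePlace.sum_mult_eq (K := K), Fintype.card, Finset.card_eq_sum_ones]
  exact Finset.sum_le_sum fun v _ => InfinitePlace.mult_pos

/-- a product over the places of factors of absolute value at most `B` -/
theorem norm_pF_le {F : InfinitePlace K → ℂ → ℂ} {B : ℝ} (hB : 1 ≤ B) (h : ∀ v z, ‖F v z‖ ≤ B)
    (y : InfinitePlace K → ℝ) (ω : InfinitePlace K → ℂ) (x : K) :
    ‖pF F y ω x‖ ≤ B ^ Module.finrank ℚ K := by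
  unfold pF
  rw [norm_prod]
  calc ∏ v, ‖F v (wv v x y ω)‖ ≤ ∏ _v : InfinitePlace K, B :=
        Finset.prod_le_prod (fun v _ => norm_nonneg _) fun v _ => h v _
    _ = B ^ Fintype.card (InfinitePlace K) := by rw [Finset.prod_const]; rfl
    _ ≤ _ := pow_le_pow_right₀ hB card_places

theorem pF_ne {F : InfinitePlace K → ℂ → ℂ} {y : InfinitePlace K → ℝ}
    {ω : InfinitePlace K → ℂ} {x : K} (h : pF F y ω x ≠ 0) (v : InfinitePlace K) :
    F v (wv v x y ω) ≠ 0 := by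
  intro h0
  exact h (Finset.prod_eq_zero (Finset.mem_univ v) h0)

theorem wv_sub (v : InfinitePlace K) (x x' : K) (y : InfinitePlace K → ℝ)
    (ω : InfinitePlace K → ℂ) : wv v (x - x') y ω = wv v x y ω - wv v x' y ω := by
  unfold wv
  rw [map_sub]
  ring

theorem norm_wv_pos {v : InfinitePlace K} {x : K} {y : InfinitePlace K → ℝ}
    {ω : InfinitePlace K → ℂ} (h : Pos ω) (hx : x ≠ 0) : 0 < ‖wv v x y ω‖ := by
  rw [Pool.Agent.H29.DW.norm_wv v x y h]
  exact mul_pos (InfinitePlace.pos_iff.2 hx) (Real.exp_pos _)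

theorem one_le_dK : 1 ≤ dK K := by
  unfold dK
  have h1 : (1 : ℤ) ≤ |discr K| := Int.one_le_abs (discr_ne_zero K)
  exact_mod_cast h1

theorem DD_pos {L : FI K} (hL : L ≠ 0) (y : InfinitePlace K → ℝ) : 0 < DD L y := by
  have h4 : (0 : ℚ) ≤ FractionalIdeal.absNorm L := FractionalIdeal.absNorm_nonneg _
  have h5 : FractionalIdeal.absNorm L ≠ 0 := fun h =>
    hL (FractionalIdeal.absNorm_eq_zero_iff.1 h)
  have h6 : 0 < (FractionalIdeal.absNorm L : ℝ) := by
    exact_mod_cast lt_of_le_of_ne h4 (Ne.symm h5)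
  exact div_pos (Real.exp_pos _) h6

/-! ### Sums over the lattice -/

theorem mem_iff (L : FI K) (x : K) : x ∈ L ↔ x ∈ (L : Submodule (𝓞 K) K) := Iff.rfl

theorem add_memL {L : FI K} {x y : K} (hx : x ∈ L) (hy : y ∈ L) : x + y ∈ L :=
  (L : Submodule (𝓞 K) K).add_mem hx hy

theorem sub_memL {L : FI K} {x y : K} (hx : x ∈ L) (hy : y ∈ L) : x - y ∈ L :=
  (L : Submodule (𝓞 K) K).sub_mem hx hy

theorem zero_memL (L : FI K) : (0 : K) ∈ L := (L : Submodule (𝓞 K) K).zero_mem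

/-- the translation by an element of the lattice -/
def shL (L : FI K) (δ : K) (hδ : δ ∈ L) : {x : K // x ∈ L} ≃ {x : K // x ∈ L} where
  toFun x := ⟨x.1 + δ, add_memL x.2 hδ⟩
  invFun x := ⟨x.1 - δ, sub_memL x.2 hδ⟩
  left_inv x := Subtype.ext (by simp)
  right_inv x := Subtype.ext (by simp)

theorem tsum_shift (L : FI K) {δ : K} (hδ : δ ∈ L) (F : K → ℂ) :
    ∑' x : {x : K // x ∈ L}, F (x + δ) = ∑' x : {x : K // x ∈ L}, F x :=
  (shL L δ hδ).tsum_eq (fun x : {x : K // x ∈ L} => F x)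

theorem tsum_eqL (L : FI K) (F : K → ℂ) (h : {x : K | x ∈ L ∧ F x ≠ 0}.Finite) :
    ∑' x : {x : K // x ∈ L}, F x = ∑ x ∈ h.toFinset, F x := by
  have h1 : ∑' x : {x : K // x ∈ L}, F x = ∑' x : K, ({x : K | x ∈ L}).indicator F x :=
    tsum_subtype {x : K | x ∈ L} F
  rw [h1, tsum_eq_sum (s := h.toFinset)]
  · refine Finset.sum_congr rfl fun x hx => ?_
    rw [Set.Finite.mem_toFinset] at hx
    exact Set.indicator_of_mem (s := {x : K | x ∈ L}) hx.1 F
  · intro x hx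
    rw [Set.Finite.mem_toFinset] at hx
    by_cases h2 : x ∈ L
    · rw [Set.indicator_of_mem (s := {x : K | x ∈ L}) h2]
      by_contra h3
      exact hx ⟨h2, h3⟩
    · exact Set.indicator_of_notMem (s := {x : K | x ∈ L}) h2 F

theorem tsum_boundL (L : FI K) (F : K → ℂ) {S : Set K} (hS : S.Finite)
    (h : ∀ x ∈ L, F x ≠ 0 → x ∈ S) {B Q : ℝ} (hB : ∀ x, ‖F x‖ ≤ B) (hQ : (S.ncard : ℝ) ≤ Q) :
    ‖∑' x : {x : K // x ∈ L}, F x‖ ≤ Q * B := by
  have hfin : {x : K | x ∈ L ∧ F x ≠ 0}.Finite := hS.subset fun x hx => h x hx.1 hx.2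
  have hB0 : 0 ≤ B := (norm_nonneg _).trans (hB 0)
  rw [tsum_eqL L F hfin]
  calc ‖∑ x ∈ hfin.toFinset, F x‖ ≤ ∑ x ∈ hfin.toFinset, ‖F x‖ := norm_sum_le _ _
    _ ≤ ∑ _x ∈ hfin.toFinset, B := Finset.sum_le_sum fun x _ => hB x
    _ = (hfin.toFinset.card : ℝ) * B := by rw [Finset.sum_const, nsmul_eq_mul]
    _ ≤ (S.ncard : ℝ) * B := by
        refine mul_le_mul_of_nonneg_right ?_ hB0
        rw [← Set.ncard_eq_toFinset_card _ hfin]
        have h3 : {x : K | x ∈ L ∧ F x ≠ 0} ⊆ S := fun x hx => h x hx.1 hx.2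
        exact_mod_cast Set.ncard_le_ncard h3 hS
    _ ≤ Q * B := mul_le_mul_of_nonneg_right hQ hB0

end Pool.Agent.H63.SWL
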