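import Pool.Agent.H63.SWL.Common
import Pool.Agent.H31.SW.Tools

/-!
# Module ME of the board swl_modules: the bound for the sum over a residue class
-/

set_option autoImplicit false
set_option linter.unusedSectionVars false

open NumberField NumberField.InfinitePlace Set

namespace Pool.Agent.H63.SWL.ME

open Pool.Agent.H25.HK Pool.Agent.H31.SW Pool.Agent.H63.SWL
open Pool.Agent.H29.DW (dg Rl wv Pos rv wv_add)

theorem Pf_bound {p : Bool → ℂ → ℂ} (hp : Pf p) : ∃ B : ℝ, 1 ≤ B ∧ ∀ r x, ‖p r x‖ ≤ B := by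
  have h : ∀ r, ∃ C, ∀ x, ‖p r x‖ ≤ C := by
    intro r
    have hc : Continuous (p r) := (hp.1 r 0).continuous
    have hcs : HasCompactSupport (p r) := by
      refine HasCompactSupport.intro (isCompact_closedBall (0 : ℂ) (1 / 10000)) fun z hz =>
        hp.2 r z ?_
      rw [Metric.mem_closedBall, dist_eq_norm, not_le, sub_zero] at hz
      exact hz
    exact hcs.exists_bound_of_continuous hc
  obtain ⟨C₁, h1⟩ := h true
  obtain ⟨C₂, h2⟩ := h false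
  refine ⟨max 1 (max C₁ C₂), le_max_left _ _, fun r x => ?_⟩
  cases r
  · exact (h2 x).trans ((le_max_right _ _).trans (le_max_right _ _))
  · exact (h1 x).trans ((le_max_left _ _).trans (le_max_right _ _))

theorem norm_GG (p : ℂ → ℂ) (c w : ℂ) : ‖GG p c w‖ = ‖p (w - 1)‖ := by
  unfold GG
  rw [norm_mul, norm_EE, one_mul]

variable {K : Type} [Field K] [NumberField K]

/-- the function of the sum -/
noncomputable def FX (p : Bool → ℂ → ℂ) (c : InfinitePlace K → ℂ) (y : InfinitePlace K → ℝ)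
    (ω : InfinitePlace K → ℂ) (r x : K) : ℂ := pF (fun v => GG (p (rv v)) (c v)) y ω (r + x)

theorem FX_le {p : Bool → ℂ → ℂ} {B : ℝ} (hB : 1 ≤ B) (hp : ∀ r x, ‖p r x‖ ≤ B)
    (c : InfinitePlace K → ℂ) (y : InfinitePlace K → ℝ) (ω : InfinitePlace K → ℂ) (r x : K) :
    ‖FX p c y ω r x‖ ≤ B ^ Module.finrank ℚ K :=
  norm_pF_le hB (fun v z => by rw [norm_GG]; exact hp _ _) y ω _

theorem FX_ne {p : Bool → ℂ → ℂ} (hp : Pf p) {c : InfinitePlace K → ℂ}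
    {y : InfinitePlace K → ℝ} {ω : InfinitePlace K → ℂ} {r x : K}
    (h : FX p c y ω r x ≠ 0) (v : InfinitePlace K) :
    ‖wv v x y ω - (1 - wv v r y ω)‖ ≤ 1 / 10000 := by
  have h1 := pF_ne h v
  by_contra h2
  apply h1
  have h3 : wv v (r + x) y ω - 1 = wv v x y ω - (1 - wv v r y ω) := by
    rw [wv_add]
    ring
  unfold GG
  rw [h3, hp.2 _ _ (not_le.1 h2), mul_zero]

/-- the sum of a difference of the function -/
theorem dif_FX (L : FI K) (p : Bool → ℂ → ℂ) (c : InfinitePlace K → ℂ)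
    (y : InfinitePlace K → ℝ) (ω : InfinitePlace K → ℂ) (r : K) {δ : K} (hδ : δ ∈ L) :
    ∑' x : {x : K // x ∈ L}, dif (2 * δ) (FX p c y ω r) x =
      ∑' x : {x : K // x ∈ L},
        pF (fun v => G2 (p (rv v)) (c v) (wv v δ y ω)) y ω (r + x) := by
  have h1 : ∀ x : K, dif (2 * δ) (FX p c y ω r) x =
      (fun x : K => pF (fun v => G2 (p (rv v)) (c v) (wv v δ y ω)) y ω (r + x)) (x + δ) := by
    intro x
    show FX p c y ω r (x + 2 * δ) * (starRingEnd ℂ) (FX p c y ω r x) =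
      pF (fun v => G2 (p (rv v)) (c v) (wv v δ y ω)) y ω (r + (x + δ))
    unfold FX pF
    rw [map_prod, ← Finset.prod_mul_distrib]
    refine Finset.prod_congr rfl fun v _ => ?_
    unfold G2
    have e1 : wv v (r + (x + 2 * δ)) y ω = wv v (r + (x + δ)) y ω + wv v δ y ω := by
      rw [← wv_add]
      congr 1
      ring
    have e2 : wv v (r + x) y ω = wv v (r + (x + δ)) y ω - wv v δ y ω := by
      rw [← wv_sub]
      congr 1
      ring
    rw [e1, e2]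
  have h2 := tsum_shift L hδ
    (fun x : K => pF (fun v => G2 (p (rv v)) (c v) (wv v δ y ω)) y ω (r + x))
  rw [← h2]
  exact tsum_congr fun x => h1 x

theorem final (E X S : ℝ) (hE : 0 ≤ E) (hX : 0 ≤ X) (h : S ^ 2 ≤ E * X ^ 2) :
    S ≤ Real.sqrt E * X := by
  refine le_of_pow_le_pow_left₀ (n := 2) (by norm_num) (by positivity) ?_
  rw [mul_pow, Real.sq_sqrt hE]
  exact h

theorem pf_ME (hCU : W_CU) (hCL : W_CL) (hDY : W_DY) (hNB : W_NB) (hWD : W_WD) (hSD : W_SD)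
    (hNM : W_NM) : W_ME := by
  classical
  intro n p hn hp
  obtain ⟨B₀, hB₀, hpB⟩ := Pf_bound hp
  obtain ⟨CU, hCU1, HU⟩ := hCU n hn
  obtain ⟨cL, hcL, HL⟩ := hCL n hn
  obtain ⟨CD, hCD, HD'⟩ := hDY n hn
  obtain ⟨CS, hCS, HS⟩ := hSD n p hn hp
  set b : ℝ := B₀ ^ n with hb
  have hb1 : 1 ≤ b := one_le_pow₀ hB₀
  set C2 : ℝ := 2 * CU / (cL * (1 / 20000) ^ n) with hC2
  have hC20 : 0 ≤ C2 := by positivity
  set E : ℝ := C2 * (2 * CU * b ^ 2 + 3 * CD * CS) with hE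
  have hE0 : 0 ≤ E := by positivity
  refine ⟨CU * b * 2 + Real.sqrt E, by positivity, ?_⟩
  intro K _ _ hK L y ω c r hL hω hc
  -- the quantities
  set A : ℝ := DD L y with hA
  have hA0 : 0 < A := DD_pos hL y
  set T : ℝ := PP (fun v => 1 + ‖c v‖) with hT
  have h1c : ∀ v, (1 : ℝ) ≤ 1 + ‖c v‖ := fun v => by linarith [norm_nonneg (c v)]
  have hT1 : 1 ≤ T := one_le_PP h1c
  have hT0 : 0 < T := by linarith
  set d : ℝ := dK K with hd
  have hd1 : 1 ≤ d := one_le_dK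
  have hd0 : 0 < d := by linarith
  set Wd : ℝ := 1 + A / T ^ (1 / 2 : ℝ) with hWd'
  have hW1 : 1 ≤ Wd := by
    have : 0 ≤ A / T ^ (1 / 2 : ℝ) := by positivity
    linarith
  have hW0 : 0 < Wd := by linarith
  set X : ℝ := d ^ (5 / 4 : ℝ) * (1 + A) ^ (1 / 2 : ℝ) * T ^ (27 / 164 : ℝ) * Wd ^ (3 / 4 : ℝ)
    with hX
  have hX0 : 0 ≤ X := by positivity
  have hX2 : X ^ 2 = d ^ (5 / 2 : ℝ) * (1 + A) * T ^ (27 / 82 : ℝ) * Wd ^ (3 / 2 : ℝ) := by
    rw [hX, mul_pow, mul_pow, mul_pow, ← Real.rpow_natCast (d ^ (5 / 4 : ℝ)),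
      ← Real.rpow_natCast ((1 + A) ^ (1 / 2 : ℝ)), ← Real.rpow_natCast (T ^ (27 / 164 : ℝ)),
      ← Real.rpow_natCast (Wd ^ (3 / 4 : ℝ)), ← Real.rpow_mul hd0.le, ← Real.rpow_mul (by linarith),
      ← Real.rpow_mul hT0.le, ← Real.rpow_mul hW0.le]
    norm_num
  have hgoal : (CU * b * 2 + Real.sqrt E) * d ^ (5 / 4 : ℝ) * (1 + A) ^ (1 / 2 : ℝ) *
      T ^ (27 / 164 : ℝ) * Wd ^ (3 / 4 : ℝ) = (CU * b * 2 + Real.sqrt E) * X := by
    rw [hX]
    ring
  rw [hgoal]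
  -- the function
  set F : K → ℂ := FX p c y ω r with hF
  have hFb : ∀ x, ‖F x‖ ≤ b := fun x => by
    have := FX_le hB₀ hpB c y ω r x
    rw [hK] at this
    exact this
  have hcount : ∀ R : ℝ, 0 ≤ R → R ≤ 1 →
      {x : K | x ∈ L ∧ ∀ v, ‖wv v x y ω - (1 - wv v r y ω)‖ ≤ R}.Finite ∧
      ({x : K | x ∈ L ∧ ∀ v, ‖wv v x y ω - (1 - wv v r y ω)‖ ≤ R}.ncard : ℝ) ≤
        CU * (1 + A) := by
    intro R hR0 hR1
    obtain ⟨h1, h2⟩ := HU K hK L y ω (fun v => 1 - wv v r y ω) (fun _ => R) hL hω fun _ => hR0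
    refine ⟨h1, h2.trans (mul_le_mul_of_nonneg_left ?_ (by linarith))⟩
    have h3 : PP (fun _ : InfinitePlace K => R) ≤ 1 := by
      rw [PP_const]
      exact pow_le_one₀ hR0 hR1
    have h4 : DD L y * PP (fun _ : InfinitePlace K => R) ≤ A * 1 :=
      mul_le_mul_of_nonneg_left h3 hA0.le
    linarith
  obtain ⟨hS1, hS1c⟩ := hcount (1 / 10000) (by norm_num) (by norm_num)
  have hFS : ∀ x ∈ L, F x ≠ 0 →
      x ∈ {x : K | x ∈ L ∧ ∀ v, ‖wv v x y ω - (1 - wv v r y ω)‖ ≤ 1 / 10000} :=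
    fun x hx h => ⟨hx, fun v => FX_ne hp h v⟩
  have hFfin : {x : K | x ∈ L ∧ F x ≠ 0}.Finite := hS1.subset fun x hx => hFS x hx.1 hx.2
  change ‖∑' x : {x : K // x ∈ L}, F x‖ ≤ _
  set S : ℝ := ‖∑' x : {x : K // x ∈ L}, F x‖ with hSdef
  have hS0 : 0 ≤ S := norm_nonneg _
  have htriv : S ≤ CU * (1 + A) * b := tsum_boundL L F hS1 hFS hFb hS1c
  have hsE : 0 ≤ Real.sqrt E * X := by positivity
  have hdb : 1 ≤ d ^ (5 / 2 : ℝ) := Real.one_le_rpow hd1 (by norm_num)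
  have hWb : 1 ≤ Wd ^ (3 / 2 : ℝ) := Real.one_le_rpow hW1 (by norm_num)
  have hTb : 1 ≤ T ^ (27 / 82 : ℝ) := Real.one_le_rpow hT1 (by norm_num)
  by_cases hcase : A ≤ T ^ (27 / 82 : ℝ)
  · -- the trivial bound
    have h1 : (1 + A) ^ 2 ≤ (2 * X) ^ 2 := by
      rw [mul_pow, hX2]
      have e1 : (1 + A) ≤ 2 * T ^ (27 / 82 : ℝ) := by linarith
      have e2 : (1 + A) * T ^ (27 / 82 : ℝ) ≤
          d ^ (5 / 2 : ℝ) * (1 + A) * T ^ (27 / 82 : ℝ) * Wd ^ (3 / 2 : ℝ) := by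
        have e3 : 0 ≤ (1 + A) * T ^ (27 / 82 : ℝ) := by positivity
        have e4 : 1 ≤ d ^ (5 / 2 : ℝ) * Wd ^ (3 / 2 : ℝ) := one_le_mul_of_one_le_of_one_le hdb hWb
        calc (1 + A) * T ^ (27 / 82 : ℝ) = 1 * ((1 + A) * T ^ (27 / 82 : ℝ)) := by ring
          _ ≤ (d ^ (5 / 2 : ℝ) * Wd ^ (3 / 2 : ℝ)) * ((1 + A) * T ^ (27 / 82 : ℝ)) :=
              mul_le_mul_of_nonneg_right e4 e3
          _ = _ := by ring
      have e5 : (1 + A) ^ 2 ≤ (1 + A) * (2 * T ^ (27 / 82 : ℝ)) := by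
        rw [sq]
        exact mul_le_mul_of_nonneg_left e1 (by linarith)
      have e6 : (1 + A) * (2 * T ^ (27 / 82 : ℝ)) = 2 * ((1 + A) * T ^ (27 / 82 : ℝ)) := by ring
      have e7 : 0 ≤ (1 + A) * T ^ (27 / 82 : ℝ) := by positivity
      linarith
    have h2 : 1 + A ≤ 2 * X := le_of_pow_le_pow_left₀ (n := 2) (by norm_num) (by positivity) h1
    have h3 : CU * (1 + A) * b ≤ CU * b * 2 * X := by
      have : CU * b * (1 + A) ≤ CU * b * (2 * X) :=
        mul_le_mul_of_nonneg_left h2 (by positivity)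
      linarith
    linarith
  push Not at hcase
  have hA1 : 1 ≤ A := by linarith
  have hUA : CU * (1 + A) ≤ 2 * CU * A := by
    have h1 := mul_le_mul_of_nonneg_left (by linarith : 1 + A ≤ 2 * A) (by linarith : 0 ≤ CU)
    linarith
  -- the shifts
  set ρ : InfinitePlace K → ℝ := fun v => 1 / 20000 * (1 + ‖c v‖) ^ (-(27 / 82) : ℝ) with hρ
  set ρ' : InfinitePlace K → ℝ := fun v => 1 / 10000 * (1 + ‖c v‖) ^ (-(27 / 82) : ℝ) with hρ'
  have hpow : ∀ v, 0 < (1 + ‖c v‖) ^ (-(27 / 82) : ℝ) ∧ (1 + ‖c v‖) ^ (-(27 / 82) : ℝ) ≤ 1 :=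
    fun v => ⟨Real.rpow_pos_of_pos (by linarith [h1c v]) _,
      Real.rpow_le_one_of_one_le_of_nonpos (h1c v) (by norm_num)⟩
  have hρ0 : ∀ v, 0 < ρ v := fun v => mul_pos (by norm_num) (hpow v).1
  have hρ0' : ∀ v, 0 < ρ' v := fun v => mul_pos (by norm_num) (hpow v).1
  have hPρ : PP ρ = (1 / 20000) ^ n * T ^ (-(27 / 82) : ℝ) := by
    rw [hρ, PP_const_mul, hK, PP_rpow fun v => by linarith [h1c v]]
  have hPρ' : PP ρ' = (1 / 10000) ^ n * T ^ (-(27 / 82) : ℝ) := by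
    rw [hρ', PP_const_mul, hK, PP_rpow fun v => by linarith [h1c v]]
  have hBfin : {x : K | x ∈ L ∧ ∀ v, ‖wv v x y ω‖ ≤ ρ v}.Finite := by
    have h1 := (HU K hK L y ω (fun _ => 0) ρ hL hω fun v => (hρ0 v).le).1
    simpa using h1
  set B' : Finset K := hBfin.toFinset with hB'
  have hB'mem : ∀ x, x ∈ B' ↔ x ∈ L ∧ ∀ v, ‖wv v x y ω‖ ≤ ρ v := fun x => by
    rw [hB', Set.Finite.mem_toFinset]
    rfl
  set B : Finset K := B'.image (fun x => 2 * x) with hB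
  have h2ne : (2 : K) ≠ 0 := two_ne_zero
  have hBcard : B.card = B'.card :=
    Finset.card_image_of_injective _ fun x x' h => mul_left_cancel₀ h2ne h
  have hBmem : ∀ x ∈ B, ∃ x' ∈ B', x = 2 * x' := fun x hx => by
    obtain ⟨x', h1, h2⟩ := Finset.mem_image.1 hx
    exact ⟨x', h1, h2.symm⟩
  have hBL : ∀ x ∈ B, x ∈ L := by
    intro x hx
    obtain ⟨x', h1, rfl⟩ := hBmem x hx
    rw [two_mul]
    exact add_memL ((hB'mem _).1 h1).1 ((hB'mem _).1 h1).1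
  have h0B' : (0 : K) ∈ B' := by
    rw [hB'mem]
    refine ⟨zero_memL L, fun v => ?_⟩
    rw [Pool.Agent.H29.DW.wv_zero, norm_zero]
    exact (hρ0 v).le
  have h0B : (0 : K) ∈ B := Finset.mem_image.2 ⟨0, h0B', mul_zero _⟩
  have hBne : B.Nonempty := ⟨0, h0B⟩
  have hBlow : cL * (1 / 20000) ^ n * (A * T ^ (-(27 / 82) : ℝ)) / Real.sqrt d ≤ (B.card : ℝ) := by
    have h1 := HL K hK L y ω ρ hL hω hρ0
    rw [hPρ] at h1
    rw [hBcard, hB', ← Set.ncard_eq_toFinset_card _ hBfin]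
    refine le_trans (le_of_eq ?_) h1
    ring
  have hBpos : 0 < (B.card : ℝ) := by exact_mod_cast hBne.card_pos
  -- the number of the shifted points
  obtain ⟨hS2, hS2c⟩ := hcount (2 / 10000) (by norm_num) (by norm_num)
  have hN : ({x : K | x ∈ L ∧ ∃ b ∈ B, F (x + b) ≠ 0}.ncard : ℝ) ≤ 2 * CU * A := by
    have h1 : {x : K | x ∈ L ∧ ∃ b ∈ B, F (x + b) ≠ 0} ⊆
        {x : K | x ∈ L ∧ ∀ v, ‖wv v x y ω - (1 - wv v r y ω)‖ ≤ 2 / 10000} := by
      rintro x ⟨hx, b, hb, hne⟩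
      refine ⟨hx, fun v => ?_⟩
      obtain ⟨b', hb', rfl⟩ := hBmem b hb
      have h3 := FX_ne hp hne v
      have h4 := ((hB'mem _).1 hb').2 v
      have h5 : ρ v ≤ 1 / 20000 := by
        have h6 := mul_le_mul_of_nonneg_left (hpow v).2 (by norm_num : (0 : ℝ) ≤ 1 / 20000)
        rw [mul_one] at h6
        exact h6
      have h6 : wv v (x + 2 * b') y ω = wv v x y ω + (wv v b' y ω + wv v b' y ω) := by
        rw [wv_add, two_mul, wv_add]
      rw [h6] at h3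
      have h7 : wv v x y ω - (1 - wv v r y ω) =
          (wv v x y ω + (wv v b' y ω + wv v b' y ω) - (1 - wv v r y ω)) -
            wv v b' y ω - wv v b' y ω := by ring
      rw [h7]
      calc ‖_ - wv v b' y ω - wv v b' y ω‖ ≤
            ‖wv v x y ω + (wv v b' y ω + wv v b' y ω) - (1 - wv v r y ω) - wv v b' y ω‖ +
              ‖wv v b' y ω‖ := norm_sub_le _ _
        _ ≤ (‖wv v x y ω + (wv v b' y ω + wv v b' y ω) - (1 - wv v r y ω)‖ +
              ‖wv v b' y ω‖) + ‖wv v b' y ω‖ := by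
            gcongr
            exact norm_sub_le _ _
        _ ≤ 2 / 10000 := by linarith
    have h2 : ({x : K | x ∈ L ∧ ∃ b ∈ B, F (x + b) ≠ 0}.ncard : ℝ) ≤
        ({x : K | x ∈ L ∧ ∀ v, ‖wv v x y ω - (1 - wv v r y ω)‖ ≤ 2 / 10000}.ncard : ℝ) := by
      exact_mod_cast Set.ncard_le_ncard h1 hS2
    exact h2.trans (hS2c.trans hUA)
  have hWDi := hWD K L F B (2 * CU * A) hFfin hBL hBne hN
  -- the differences
  set Z : ℝ := T ^ (27 / 82 : ℝ) * Wd ^ (3 / 2 : ℝ) with hZ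
  have hdiff : ∀ δ : K, δ ∈ L → δ ≠ 0 → (∀ v, ‖wv v δ y ω‖ ≤ ρ' v) →
      ‖∑' x : {x : K // x ∈ L}, dif (2 * δ) F x‖ ≤ CS * d ^ 2 * (3 * Z) := by
    intro δ hδL hδ0 hδ
    have hδ1 : ∀ v, ‖wv v δ y ω‖ ≤ 1 / 10000 := fun v => (hδ v).trans (by
      have := mul_le_mul_of_nonneg_left (hpow v).2 (by norm_num : (0 : ℝ) ≤ 1 / 10000)
      show 1 / 10000 * (1 + ‖c v‖) ^ (-(27 / 82) : ℝ) ≤ 1 / 10000
      linarith)
    rw [hF, dif_FX L p c y ω r hδL]
    refine (HS K hK L y ω c r δ hL hω hc hδ0 hδ1).trans ?_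
    refine mul_le_mul_of_nonneg_left ?_ (by positivity)
    refine hNM A T _ hT1 hcase.le ?_ ?_
    · -- the lower bound
      rw [div_le_iff₀ hA0]
      have h1 := hNB K L y ω δ hL hω hδL hδ0
      have h2 : T * PP (fun v => ‖wv v δ y ω‖) ≤
          PP (fun v => max 1 ‖2 * c v * wv v δ y ω‖) := by
        rw [hT, ← PP_mul]
        refine PP_mono (fun v => mul_nonneg (by linarith [h1c v]) (norm_nonneg _)) fun v => ?_
        rcases le_total 1 ‖c v‖ with h3 | h3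
        · refine le_trans ?_ (le_max_right _ _)
          rw [norm_mul, norm_mul, Complex.norm_ofNat]
          refine mul_le_mul_of_nonneg_right ?_ (norm_nonneg _)
          linarith
        · refine le_trans ?_ (le_max_left _ _)
          have h4 := hδ1 v
          have h5 := norm_nonneg (wv v δ y ω)
          have h6 : (1 + ‖c v‖) * ‖wv v δ y ω‖ ≤ 2 * (1 / 10000) :=
            mul_le_mul (by linarith) h4 h5 (by norm_num)
          exact h6.trans (by norm_num)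
      have h3 : (1 : ℝ) ≤ A * PP (fun v => ‖wv v δ y ω‖) := h1
      have h4 : 0 ≤ PP (fun v => ‖wv v δ y ω‖) := PP_nonneg fun v => norm_nonneg _
      calc T = T * 1 := (mul_one _).symm
        _ ≤ T * (A * PP (fun v => ‖wv v δ y ω‖)) := mul_le_mul_of_nonneg_left h3 hT0.le
        _ = (T * PP (fun v => ‖wv v δ y ω‖)) * A := by ring
        _ ≤ _ := mul_le_mul_of_nonneg_right h2 hA0.le
    · -- the upper bound
      rw [hT, ← PP_rpow fun v => by linarith [h1c v]]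
      refine PP_mono (fun v => le_trans zero_le_one (le_max_left _ _)) fun v => ?_
      refine max_le (Real.one_le_rpow (h1c v) (by norm_num)) ?_
      rw [norm_mul, norm_mul, Complex.norm_ofNat]
      have h1 : ‖wv v δ y ω‖ ≤ 1 / 10000 * (1 + ‖c v‖) ^ (-(27 / 82) : ℝ) := hδ v
      have h2 : (1 + ‖c v‖) ^ (55 / 82 : ℝ) = (1 + ‖c v‖) * (1 + ‖c v‖) ^ (-(27 / 82) : ℝ) := by
        conv_rhs => rw [← Real.rpow_one (1 + ‖c v‖)]
        rw [← Real.rpow_mul (by linarith [h1c v]), ← Real.rpow_add (by linarith [h1c v])]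
        norm_num
      rw [h2]
      have h3 := (hpow v).1
      have h4 := norm_nonneg (c v)
      calc 2 * ‖c v‖ * ‖wv v δ y ω‖ ≤
            2 * ‖c v‖ * (1 / 10000 * (1 + ‖c v‖) ^ (-(27 / 82) : ℝ)) :=
              mul_le_mul_of_nonneg_left h1 (by positivity)
        _ = (2 / 10000 * ‖c v‖) * (1 + ‖c v‖) ^ (-(27 / 82) : ℝ) := by ring
        _ ≤ _ := by
            refine mul_le_mul_of_nonneg_right ?_ h3.le
            linarith
  -- the sum over the differences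
  set Γ := (B ×ˢ B).image (fun q => q.1 - q.2) with hΓ
  have h0Γ : (0 : K) ∈ Γ := Finset.mem_image.2 ⟨(0, 0), Finset.mem_product.2 ⟨h0B, h0B⟩, sub_zero _⟩
  have hΓmem : ∀ γ ∈ Γ.erase 0, ∃ δ : K, γ = 2 * δ ∧ δ ∈ L ∧ δ ≠ 0 ∧
      ∀ v, ‖wv v δ y ω‖ ≤ ρ' v := by
    intro γ hγ
    obtain ⟨hγ0, hγ⟩ := Finset.mem_erase.1 hγ
    obtain ⟨q, hq, rfl⟩ := Finset.mem_image.1 hγ
    obtain ⟨hq1, hq2⟩ := Finset.mem_product.1 hq
    obtain ⟨b₁, hb₁, e1⟩ := hBmem _ hq1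
    obtain ⟨b₂, hb₂, e2⟩ := hBmem _ hq2
    refine ⟨b₁ - b₂, ?_, sub_memL ((hB'mem _).1 hb₁).1 ((hB'mem _).1 hb₂).1, ?_, fun v => ?_⟩
    · simp only [e1, e2]
      ring
    · intro h
      apply hγ0
      simp only [e1, e2]
      rw [← mul_sub, h, mul_zero]
    · rw [wv_sub]
      have h1 := ((hB'mem _).1 hb₁).2 v
      have h2 := ((hB'mem _).1 hb₂).2 v
      have h3 : ρ' v = ρ v + ρ v := by
        show 1 / 10000 * (1 + ‖c v‖) ^ (-(27 / 82) : ℝ) =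
          1 / 20000 * (1 + ‖c v‖) ^ (-(27 / 82) : ℝ) + 1 / 20000 * (1 + ‖c v‖) ^ (-(27 / 82) : ℝ)
        ring
      rw [h3]
      exact (norm_sub_le _ _).trans (add_le_add h1 h2)
  have hΓcard : ((Γ.erase 0).card : ℝ) ≤ CD * (A * T ^ (-(27 / 82) : ℝ)) := by
    set Y : Finset K := (Γ.erase 0).image (fun γ => γ / 2) with hY
    have h1 : Y.card = (Γ.erase 0).card :=
      Finset.card_image_of_injective _ fun x x' h => by
        have h' : x / 2 = x' / 2 := h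
        exact (div_left_inj' h2ne).1 h'
    have h2 : ∀ x ∈ Y, x ∈ L ∧ x ≠ 0 ∧ ∀ v, ‖wv v x y ω‖ ≤ ρ' v := by
      intro x hx
      obtain ⟨γ, hγ, rfl⟩ := Finset.mem_image.1 hx
      obtain ⟨δ, rfl, h3, h4, h5⟩ := hΓmem γ hγ
      rw [mul_div_cancel_left₀ δ h2ne]
      exact ⟨h3, h4, h5⟩
    have h3 := HD' K hK L y ω ρ' Y hL hω hρ0' h2
    have h4 : (Y.card : ℝ) ≤ ∑ x ∈ Y, ∏ v : InfinitePlace K,
        (‖wv v x y ω‖ / ρ' v) ^ (-(v.mult : ℝ) / 2) := by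
      have h5 : ∀ x ∈ Y, (1 : ℝ) ≤ ∏ v : InfinitePlace K,
          (‖wv v x y ω‖ / ρ' v) ^ (-(v.mult : ℝ) / 2) := by
        intro x hx
        obtain ⟨-, hx0, hx1⟩ := h2 x hx
        have h6 : ∏ _v : InfinitePlace K, (1 : ℝ) ≤ ∏ v : InfinitePlace K,
            (‖wv v x y ω‖ / ρ' v) ^ (-(v.mult : ℝ) / 2) := by
          refine Finset.prod_le_prod (fun _ _ => zero_le_one) fun v _ => ?_
          refine Real.one_le_rpow_of_pos_of_le_one_of_nonpos
            (div_pos (norm_wv_pos hω hx0) (hρ0' v)) ((div_le_one (hρ0' v)).2 (hx1 v)) ?_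
          have : (0 : ℝ) ≤ (v.mult : ℝ) := Nat.cast_nonneg _
          linarith
        rwa [Finset.prod_const_one] at h6
      have h7 := Finset.sum_le_sum h5
      rw [Finset.sum_const, nsmul_eq_mul, mul_one] at h7
      exact h7
    rw [h1] at h4
    refine h4.trans (h3.trans ?_)
    refine mul_le_mul_of_nonneg_left ?_ (by linarith)
    refine mul_le_mul_of_nonneg_left ?_ hA0.le
    rw [hPρ']
    have h8 : ((1 : ℝ) / 10000) ^ n ≤ 1 := pow_le_one₀ (by norm_num) (by norm_num)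
    have h9 : 0 ≤ T ^ (-(27 / 82) : ℝ) := by positivity
    exact mul_le_of_le_one_left h9 h8
  have hsum : ∑ γ ∈ Γ, ‖∑' x : {x : K // x ∈ L}, dif γ F x‖ ≤
      2 * CU * A * b ^ 2 + CD * (A * T ^ (-(27 / 82) : ℝ)) * (CS * d ^ 2 * (3 * Z)) := by
    rw [← Finset.add_sum_erase Γ _ h0Γ]
    refine add_le_add ?_ ?_
    · have h1 : ∀ x ∈ L, dif 0 F x ≠ 0 →
          x ∈ {x : K | x ∈ L ∧ ∀ v, ‖wv v x y ω - (1 - wv v r y ω)‖ ≤ 1 / 10000} := by
        intro x hx h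
        refine hFS x hx fun h' => h ?_
        unfold dif
        rw [h', map_zero, mul_zero]
      have h2 : ∀ x, ‖dif 0 F x‖ ≤ b ^ 2 := by
        intro x
        unfold dif
        rw [norm_mul, RCLike.norm_conj, sq]
        exact mul_le_mul (hFb _) (hFb _) (norm_nonneg _) (by linarith)
      exact (tsum_boundL L (dif 0 F) hS1 h1 h2 hS1c).trans
        (mul_le_mul_of_nonneg_right hUA (by positivity))
    · have h1 : ∀ γ ∈ Γ.erase 0, ‖∑' x : {x : K // x ∈ L}, dif γ F x‖ ≤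
          CS * d ^ 2 * (3 * Z) := by
        intro γ hγ
        obtain ⟨δ, rfl, h3, h4, h5⟩ := hΓmem γ hγ
        exact hdiff δ h3 h4 h5
      have h2 := Finset.sum_le_card_nsmul _ _ _ h1
      rw [nsmul_eq_mul] at h2
      exact h2.trans (mul_le_mul_of_nonneg_right hΓcard (by positivity))
  -- the end
  have hTm : T ^ (-(27 / 82) : ℝ) * T ^ (27 / 82 : ℝ) = 1 := by
    rw [← Real.rpow_add hT0]
    norm_num
  have hsd : 0 < Real.sqrt d := Real.sqrt_pos.2 hd0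
  have hNB' : 2 * CU * A / (B.card : ℝ) ≤ C2 * Real.sqrt d * T ^ (27 / 82 : ℝ) := by
    rw [div_le_iff₀ hBpos]
    have h1 : C2 * Real.sqrt d * T ^ (27 / 82 : ℝ) *
        (cL * (1 / 20000) ^ n * (A * T ^ (-(27 / 82) : ℝ)) / Real.sqrt d) = 2 * CU * A := by
      have e1 : C2 * (cL * (1 / 20000) ^ n) = 2 * CU := by
        rw [hC2]
        field_simp
      calc C2 * Real.sqrt d * T ^ (27 / 82 : ℝ) *
            (cL * (1 / 20000) ^ n * (A * T ^ (-(27 / 82) : ℝ)) / Real.sqrt d) =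
            (C2 * (cL * (1 / 20000) ^ n)) * A * (T ^ (-(27 / 82) : ℝ) * T ^ (27 / 82 : ℝ)) *
              (Real.sqrt d / Real.sqrt d) := by ring
        _ = 2 * CU * A := by rw [e1, hTm, div_self hsd.ne', mul_one, mul_one]
    rw [← h1]
    exact mul_le_mul_of_nonneg_left hBlow (by positivity)
  have hmain : S ^ 2 ≤ E * X ^ 2 := by
    have h1 : S ^ 2 ≤ C2 * Real.sqrt d * T ^ (27 / 82 : ℝ) *
        (2 * CU * A * b ^ 2 + CD * (A * T ^ (-(27 / 82) : ℝ)) * (CS * d ^ 2 * (3 * Z))) := by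
      refine hWDi.trans ?_
      refine mul_le_mul hNB' hsum (Finset.sum_nonneg fun _ _ => norm_nonneg _) (by positivity)
    refine h1.trans ?_
    have e2 : CD * (A * T ^ (-(27 / 82) : ℝ)) * (CS * d ^ 2 * (3 * Z)) =
        3 * CD * CS * d ^ 2 * A * Wd ^ (3 / 2 : ℝ) := by
      rw [hZ]
      calc CD * (A * T ^ (-(27 / 82) : ℝ)) * (CS * d ^ 2 * (3 * (T ^ (27 / 82 : ℝ) *
            Wd ^ (3 / 2 : ℝ)))) = 3 * CD * CS * d ^ 2 * A * Wd ^ (3 / 2 : ℝ) *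
              (T ^ (-(27 / 82) : ℝ) * T ^ (27 / 82 : ℝ)) := by ring
        _ = _ := by rw [hTm, mul_one]
    have e3 : 2 * CU * A * b ^ 2 ≤ 2 * CU * b ^ 2 * (d ^ 2 * A * Wd ^ (3 / 2 : ℝ)) := by
      have h3 : 1 ≤ d ^ 2 * Wd ^ (3 / 2 : ℝ) := one_le_mul_of_one_le_of_one_le
        (one_le_pow₀ hd1) hWb
      have h4 : A ≤ d ^ 2 * A * Wd ^ (3 / 2 : ℝ) := by
        calc A = A * 1 := (mul_one _).symm
          _ ≤ A * (d ^ 2 * Wd ^ (3 / 2 : ℝ)) := mul_le_mul_of_nonneg_left h3 hA0.le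
          _ = _ := by ring
      calc 2 * CU * A * b ^ 2 = 2 * CU * b ^ 2 * A := by ring
        _ ≤ _ := mul_le_mul_of_nonneg_left h4 (by positivity)
    have e4 : Real.sqrt d * d ^ 2 = d ^ (5 / 2 : ℝ) := by
      rw [Real.sqrt_eq_rpow, ← Real.rpow_natCast, ← Real.rpow_add hd0]
      norm_num
    rw [e2, hX2, hE]
    calc C2 * Real.sqrt d * T ^ (27 / 82 : ℝ) *
          (2 * CU * A * b ^ 2 + 3 * CD * CS * d ^ 2 * A * Wd ^ (3 / 2 : ℝ)) ≤
          C2 * Real.sqrt d * T ^ (27 / 82 : ℝ) * (2 * CU * b ^ 2 * (d ^ 2 * A * Wd ^ (3 / 2 : ℝ)) +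
            3 * CD * CS * d ^ 2 * A * Wd ^ (3 / 2 : ℝ)) := by
            refine mul_le_mul_of_nonneg_left ?_ (by positivity)
            linarith
      _ = C2 * (2 * CU * b ^ 2 + 3 * CD * CS) * ((Real.sqrt d * d ^ 2) * A *
            T ^ (27 / 82 : ℝ) * Wd ^ (3 / 2 : ℝ)) := by ring
      _ = C2 * (2 * CU * b ^ 2 + 3 * CD * CS) * (d ^ (5 / 2 : ℝ) * A *
            T ^ (27 / 82 : ℝ) * Wd ^ (3 / 2 : ℝ)) := by rw [e4]
      _ ≤ _ := by
            refine mul_le_mul_of_nonneg_left ?_ (by positivity)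
            have h5 : 0 ≤ d ^ (5 / 2 : ℝ) * T ^ (27 / 82 : ℝ) * Wd ^ (3 / 2 : ℝ) := by positivity
            have h6 : d ^ (5 / 2 : ℝ) * (1 + A) * T ^ (27 / 82 : ℝ) * Wd ^ (3 / 2 : ℝ) =
                d ^ (5 / 2 : ℝ) * A * T ^ (27 / 82 : ℝ) * Wd ^ (3 / 2 : ℝ) +
                  d ^ (5 / 2 : ℝ) * T ^ (27 / 82 : ℝ) * Wd ^ (3 / 2 : ℝ) := by ring
            rw [h6]
            exact le_add_of_nonneg_right h5
  have hfin := final E X S hE0 hX0 hmain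
  have hrest : 0 ≤ CU * b * 2 * X := by positivity
  linarith

end Pool.Agent.H63.SWL.ME
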