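import Pool.Agent.H63.SWL.GDb

/-!
# Module GD of the board swl_modules: the bound for the dual sums
-/

set_option autoImplicit false
set_option linter.unusedSectionVars false

open NumberField NumberField.InfinitePlace Set

namespace Pool.Agent.H63.SWL.GD

open Pool.Agent.H25.HK Pool.Agent.H31.SW Pool.Agent.H63.SWL Pool.Agent.H23.LB
open Pool.Agent.H29.DW (dg Rl wv Pos rv wv_add)

/-- the numbers of one term -/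
theorem term_num {Q P k q u₁ u₂ u₃ M c : ℝ} (hQ : 0 < Q) (hP : 0 < P) (hk : 0 < k) (hq : 0 < q)
    (hu₁ : 0 < u₁) (hu₂ : 0 < u₂) (hu₃ : 0 < u₃) (hM : 0 ≤ M) (hc : 0 ≤ c)
    (h1 : k * (u₁ * u₂ * u₃) * P ≤ Q) (h2 : Q ≤ q * P)
    (w₁ : 1 ≤ u₁ ^ (-(1 / 2) : ℝ)) (w₂ : 1 ≤ u₂ ^ (-(1 / 2) : ℝ))
    (w₃ : 1 ≤ u₃ ^ (-(1 / 2) : ℝ)) :
    c * (M * Q ^ (-(1 / 2) : ℝ) + Q ^ (1 / 2 : ℝ)) ≤
      c * (k ^ (-(1 / 2) : ℝ) * M * P ^ (-(1 / 2) : ℝ) + q ^ (1 / 2 : ℝ) * P ^ (1 / 2 : ℝ)) *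
        (u₁ ^ (-(1 / 2) : ℝ) * (u₂ ^ (-(1 / 2) : ℝ) * u₃ ^ (-(1 / 2) : ℝ))) := by
  have hu : 0 < u₁ * u₂ * u₃ := mul_pos (mul_pos hu₁ hu₂) hu₃
  have e1 : Q ^ (-(1 / 2) : ℝ) ≤ (k * (u₁ * u₂ * u₃) * P) ^ (-(1 / 2) : ℝ) :=
    Real.rpow_le_rpow_of_nonpos (mul_pos (mul_pos hk hu) hP) h1 (by norm_num)
  have e2 : (k * (u₁ * u₂ * u₃) * P) ^ (-(1 / 2) : ℝ) = k ^ (-(1 / 2) : ℝ) *
      (u₁ ^ (-(1 / 2) : ℝ) * u₂ ^ (-(1 / 2) : ℝ) * u₃ ^ (-(1 / 2) : ℝ)) * P ^ (-(1 / 2) : ℝ) := by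
    rw [Real.mul_rpow (mul_pos hk hu).le hP.le, Real.mul_rpow hk.le hu.le,
      Real.mul_rpow (mul_pos hu₁ hu₂).le hu₃.le, Real.mul_rpow hu₁.le hu₂.le]
  have e3 : Q ^ (1 / 2 : ℝ) ≤ q ^ (1 / 2 : ℝ) * P ^ (1 / 2 : ℝ) := by
    rw [← Real.mul_rpow hq.le hP.le]
    exact Real.rpow_le_rpow hQ.le h2 (by norm_num)
  rw [e2] at e1
  have p1 : 0 ≤ P ^ (-(1 / 2) : ℝ) := Real.rpow_nonneg hP.le _
  have p2 : 0 ≤ P ^ (1 / 2 : ℝ) := Real.rpow_nonneg hP.le _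
  have p3 : 0 ≤ k ^ (-(1 / 2) : ℝ) := Real.rpow_nonneg hk.le _
  have p4 : 0 ≤ q ^ (1 / 2 : ℝ) := Real.rpow_nonneg hq.le _
  generalize Q ^ (-(1 / 2) : ℝ) = x₁ at *
  generalize Q ^ (1 / 2 : ℝ) = x₂ at *
  generalize P ^ (-(1 / 2) : ℝ) = y₁ at *
  generalize P ^ (1 / 2 : ℝ) = y₂ at *
  generalize k ^ (-(1 / 2) : ℝ) = k₁ at *
  generalize q ^ (1 / 2 : ℝ) = k₂ at *
  generalize u₁ ^ (-(1 / 2) : ℝ) = v₁ at *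
  generalize u₂ ^ (-(1 / 2) : ℝ) = v₂ at *
  generalize u₃ ^ (-(1 / 2) : ℝ) = v₃ at *
  have e4 : 1 ≤ v₁ * (v₂ * v₃) :=
    one_le_mul_of_one_le_of_one_le w₁ (one_le_mul_of_one_le_of_one_le w₂ w₃)
  have e5 : M * x₁ ≤ M * (k₁ * (v₁ * v₂ * v₃) * y₁) := mul_le_mul_of_nonneg_left e1 hM
  have e6 : k₂ * y₂ ≤ k₂ * y₂ * (v₁ * (v₂ * v₃)) :=
    le_mul_of_one_le_right (mul_nonneg p4 p2) e4
  have e7 : M * x₁ + x₂ ≤ (k₁ * M * y₁ + k₂ * y₂) * (v₁ * (v₂ * v₃)) := by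
    have e8 : (k₁ * M * y₁ + k₂ * y₂) * (v₁ * (v₂ * v₃)) =
        M * (k₁ * (v₁ * v₂ * v₃) * y₁) + k₂ * y₂ * (v₁ * (v₂ * v₃)) := by ring
    rw [e8]
    linarith
  calc c * (M * x₁ + x₂) ≤ c * ((k₁ * M * y₁ + k₂ * y₂) * (v₁ * (v₂ * v₃))) :=
        mul_le_mul_of_nonneg_left e7 hc
    _ = _ := by ring

/-- the sum over the triples -/
theorem triple_sum {α : Type} {X₁ X₂ X₃ : Finset α} {f : α → α → α → ℝ} {W₁ W₂ W₃ : α → ℝ}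
    {c m₁ m₂ m₃ : ℝ} (hc : 0 ≤ c) (h0₁ : ∀ x ∈ X₁, 0 ≤ W₁ x) (h0₂ : ∀ x ∈ X₂, 0 ≤ W₂ x)
    (h0₃ : ∀ x ∈ X₃, 0 ≤ W₃ x)
    (hf : ∀ x₁ ∈ X₁, ∀ x₂ ∈ X₂, ∀ x₃ ∈ X₃, f x₁ x₂ x₃ ≤ c * (W₁ x₁ * (W₂ x₂ * W₃ x₃)))
    (h1 : ∑ x ∈ X₁, W₁ x ≤ m₁) (h2 : ∑ x ∈ X₂, W₂ x ≤ m₂) (h3 : ∑ x ∈ X₃, W₃ x ≤ m₃) :
    ∑ x₁ ∈ X₁, ∑ x₂ ∈ X₂, ∑ x₃ ∈ X₃, f x₁ x₂ x₃ ≤ c * (m₁ * (m₂ * m₃)) := by
  have e1 : ∑ x₁ ∈ X₁, ∑ x₂ ∈ X₂, ∑ x₃ ∈ X₃, f x₁ x₂ x₃ ≤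
      ∑ x₁ ∈ X₁, ∑ x₂ ∈ X₂, ∑ x₃ ∈ X₃, c * (W₁ x₁ * (W₂ x₂ * W₃ x₃)) :=
    Finset.sum_le_sum fun x₁ h₁ => Finset.sum_le_sum fun x₂ h₂ => Finset.sum_le_sum fun x₃ h₃ =>
      hf x₁ h₁ x₂ h₂ x₃ h₃
  have e2 : ∑ x₁ ∈ X₁, ∑ x₂ ∈ X₂, ∑ x₃ ∈ X₃, c * (W₁ x₁ * (W₂ x₂ * W₃ x₃)) =
      c * ((∑ x ∈ X₁, W₁ x) * ((∑ x ∈ X₂, W₂ x) * (∑ x ∈ X₃, W₃ x))) := by
    rw [Finset.sum_mul, Finset.mul_sum]
    refine Finset.sum_congr rfl fun x₁ _ => ?_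
    rw [Finset.sum_mul, Finset.mul_sum, Finset.mul_sum]
    refine Finset.sum_congr rfl fun x₂ _ => ?_
    rw [Finset.mul_sum, Finset.mul_sum, Finset.mul_sum]
  have n1 := Finset.sum_nonneg h0₁
  have n2 := Finset.sum_nonneg h0₂
  have n3 := Finset.sum_nonneg h0₃
  rw [e2] at e1
  refine e1.trans (mul_le_mul_of_nonneg_left ?_ hc)
  refine mul_le_mul h1 (mul_le_mul h2 h3 n3 (n2.trans h2)) (mul_nonneg n2 n3) (n1.trans h1)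

theorem pf_GD (hCU : W_CU) (hCL : W_CL) (hDY : W_DY) (hTD : W_TD) (hP3 : W_P3) (hNG : W_NG) :
    W_GD := by
  classical
  intro n hn
  obtain ⟨CU, hCU1, HU⟩ := hCU n hn
  obtain ⟨cL, hcL, HL⟩ := hCL n hn
  obtain ⟨CD, hCD, HD⟩ := hDY n hn
  obtain ⟨C₃, hC₃, H3⟩ := hP3 n hn
  obtain ⟨c₂, hc₂⟩ : ∃ c₂ : ℝ, c₂ = 2 * (CU * 3 ^ n) / (cL * (1 / 4000) ^ n) := ⟨_, rfl⟩
  obtain ⟨k₁, hk₁⟩ : ∃ k₁ : ℝ, k₁ = (((1 / 2000 : ℝ) ^ 3) ^ n) ^ (-(1 / 2) : ℝ) := ⟨_, rfl⟩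
  obtain ⟨k₂, hk₂⟩ : ∃ k₂ : ℝ, k₂ = ((2 : ℝ) ^ n) ^ (1 / 2 : ℝ) := ⟨_, rfl⟩
  have hc₂0 : 0 ≤ c₂ := by
    rw [hc₂]
    positivity
  have hk₁0 : 0 ≤ k₁ := by
    rw [hk₁]
    positivity
  have hk₂0 : 0 ≤ k₂ := by
    rw [hk₂]
    positivity
  have hCN0 : 0 ≤ CU * 3 ^ n := by positivity
  obtain ⟨E, hE⟩ : ∃ E : ℝ, E = 1 + (8 * c₂ ^ 4 * (2 * (CU * 3 ^ n)) ^ 4 +
      16 * (c₂ * CD) ^ 4 * c₂ ^ 2 * (2 * (CU * 3 ^ n)) ^ 2 +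
      16 * (c₂ * CD) ^ 6 * c₂ * (2 * (CU * 3 ^ n)) +
      16 * (c₂ * CD) ^ 4 * c₂ ^ 3 * C₃ * CD ^ 3 * (k₁ + k₂)) := ⟨_, rfl⟩
  have hE0 : 0 ≤ E := by
    rw [hE]
    have hCD0 : 0 ≤ CD := by linarith
    positivity
  refine ⟨2 * (CU * 3 ^ n) + 3 * E, by linarith, ?_⟩
  intro K _ _ hK L y ω t Λ a g F r hL hω hF
  have hm : ∀ v, 1 ≤ Mt (t v) (Λ v) := fun v => one_le_Mt (hF v)
  obtain ⟨m, hmdef⟩ : ∃ m : InfinitePlace K → ℝ, m = fun v => Mt (t v) (Λ v) := ⟨_, rfl⟩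
  have hm' : ∀ v, 1 ≤ m v := fun v => by rw [hmdef]; exact hm v
  have hm0 : ∀ v, 0 < m v := fun v => by linarith [hm' v]
  have hΦ1 : 1 ≤ PP m := one_le_PP hm'
  have hD0 : 0 < DD L y := DD_pos hL y
  have hd1 : 1 ≤ dK K := one_le_dK
  have hs1 : 1 ≤ Real.sqrt (dK K) := Real.one_le_sqrt.2 hd1
  -- the function
  obtain ⟨G, hG⟩ : ∃ G : K → ℂ, G = fun x => ca K r x * pF F y ω x := ⟨_, rfl⟩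
  have hpFb : ∀ x, ‖pF F y ω x‖ ≤ 1 := fun x => by
    have h1 := norm_pF_le (le_refl (1 : ℝ)) (fun v z => norm_F (hF v) z) y ω x
    rwa [one_pow] at h1
  have hGb : ∀ x, ‖G x‖ ≤ 1 := fun x => by
    rw [hG]
    show ‖ca K r x * pF F y ω x‖ ≤ 1
    rw [norm_mul, norm_ca, one_mul]
    exact hpFb x
  have hGs : ∀ x, G x ≠ 0 → ∀ v, ‖wv v x y ω - cc (t v) (Λ v) (g v)‖ ≤ 2 * m v := by
    intro x hx v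
    rw [hG] at hx
    have h1 : pF F y ω x ≠ 0 := right_ne_zero_of_mul hx
    rw [hmdef]
    exact supp_F (hF v) (pF_ne h1 v)
  have HU' : ∀ (c : InfinitePlace K → ℂ) (R : InfinitePlace K → ℝ), (∀ v, 0 ≤ R v) →
      {x : K | x ∈ L ∧ ∀ v, ‖wv v x y ω - c v‖ ≤ R v}.Finite ∧
      ({x : K | x ∈ L ∧ ∀ v, ‖wv v x y ω - c v‖ ≤ R v}.ncard : ℝ) ≤ CU * (1 + DD L y * PP R) :=
    fun c R hR => HU K hK L y ω c R hL hω hR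
  have HL' : ∀ (R : InfinitePlace K → ℝ), (∀ v, 0 < R v) →
      cL * (DD L y * PP R) / Real.sqrt (dK K) ≤
        ({x : K | x ∈ L ∧ ∀ v, ‖wv v x y ω‖ ≤ R v}.ncard : ℝ) :=
    fun R hR => HL K hK L y ω R hL hω hR
  have HD' : ∀ (R : InfinitePlace K → ℝ) (X : Finset K), (∀ v, 0 < R v) →
      (∀ x ∈ X, x ∈ L ∧ x ≠ 0 ∧ ∀ v, ‖wv v x y ω‖ ≤ R v) →
      ∑ x ∈ X, ∏ v : InfinitePlace K, (‖wv v x y ω‖ / R v) ^ (-(v.mult : ℝ) / 2) ≤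
        CD * (DD L y * PP R) := fun R X hR hX => HD K hK L y ω R X hL hω hR hX
  have hbox := HU' (fun v => cc (t v) (Λ v) (g v)) (fun v => 2 * m v) fun v => by
    linarith [hm' v]
  have hGfin : {x : K | x ∈ L ∧ G x ≠ 0}.Finite :=
    hbox.1.subset fun x hx => ⟨hx.1, hGs x hx.2⟩
  have htriv : ‖∑' x : {x : K // x ∈ L}, G x‖ ≤ CU * 3 ^ n * (1 + DD L y * PP m) := by
    have h1 := tsum_boundL L G hbox.1 (fun x hx hne => ⟨hx, hGs x hne⟩) hGb hbox.2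
    rw [mul_one, PP_const_mul, hK] at h1
    refine h1.trans ?_
    rw [mul_assoc]
    refine mul_le_mul_of_nonneg_left ?_ (by linarith)
    have h2 : (1 : ℝ) ≤ 3 ^ n := one_le_pow₀ (by norm_num)
    have h3 : (2 : ℝ) ^ n ≤ 3 ^ n := pow_le_pow_left₀ (by norm_num) (by norm_num) n
    have h4 : DD L y * (2 ^ n * PP m) ≤ 3 ^ n * (DD L y * PP m) := by
      have h5 : 0 ≤ DD L y * PP m := by positivity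
      have h6 := mul_le_mul_of_nonneg_right h3 h5
      linarith
    linarith
  change ‖∑' x : {x : K // x ∈ L}, (fun x : K => ca K r x * pF F y ω x) x‖ ≤ _
  rw [← hG, ← hmdef]
  obtain ⟨Z₁, hZ₁⟩ : ∃ Z : ℝ, Z = DD L y ^ (5 / 6 : ℝ) * PP m ^ (13 / 15 : ℝ) := ⟨_, rfl⟩
  obtain ⟨Z₂, hZ₂⟩ : ∃ Z : ℝ, Z = DD L y ^ (25 / 24 : ℝ) * PP m ^ (121 / 120 : ℝ) := ⟨_, rfl⟩
  have hZ₁0 : 0 ≤ Z₁ := by
    rw [hZ₁]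
    positivity
  have hZ₂0 : 0 ≤ Z₂ := by
    rw [hZ₂]
    positivity
  rcases hNG (DD L y) (PP m) hD0 hΦ1 with hcase | ⟨R, θ₁, θ₂, θ₃, P, hR, hθ₁, hθ₂, hθ₃, hθ, hP,
    hM1, hPe, hR₁, hR₂, hR₃, hfinal⟩
  · rw [← hZ₁, ← hZ₂] at hcase ⊢
    have h1 : CU * 3 ^ n * (1 + DD L y * PP m) ≤ CU * 3 ^ n * (2 * (1 + Z₁ + Z₂)) :=
      mul_le_mul_of_nonneg_left hcase hCN0
    have h2 : 2 * (CU * 3 ^ n) + 3 * E ≤ (2 * (CU * 3 ^ n) + 3 * E) * Real.sqrt (dK K) :=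
      le_mul_of_one_le_right (by linarith) hs1
    have h3 : CU * 3 ^ n * (2 * (1 + Z₁ + Z₂)) ≤ (2 * (CU * 3 ^ n) + 3 * E) * (1 + Z₁ + Z₂) := by
      have h4 : 0 ≤ 3 * E * (1 + Z₁ + Z₂) := by positivity
      have h5 : (2 * (CU * 3 ^ n) + 3 * E) * (1 + Z₁ + Z₂) =
          CU * 3 ^ n * (2 * (1 + Z₁ + Z₂)) + 3 * E * (1 + Z₁ + Z₂) := by ring
      rw [h5]
      linarith
    exact htriv.trans (h1.trans (h3.trans (mul_le_mul_of_nonneg_right h2 (by linarith))))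
  rw [← hZ₁, ← hZ₂] at hfinal ⊢
  have hCD0 : 0 ≤ CD := by linarith
  obtain ⟨B₁, hB₁L, hB₁0, hB₁N, hB₁ν, hB₁d, hB₁s, hB₁m⟩ :=
    shifts hK hL hω hm' hCU1 hcL hCD HU' HL' HD' hGs hM1 hθ₁
  obtain ⟨B₂, hB₂L, hB₂0, hB₂N, hB₂ν, hB₂d, hB₂s, hB₂m⟩ :=
    shifts hK hL hω hm' hCU1 hcL hCD HU' HL' HD' hGs hM1 hθ₂
  obtain ⟨B₃, hB₃L, hB₃0, hB₃N, hB₃ν, hB₃d, hB₃s, hB₃m⟩ :=
    shifts hK hL hω hm' hCU1 hcL hCD HU' HL' HD' hGs hM1 hθ₃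
  rw [hR₁, ← hc₂] at hB₁ν
  rw [hR₂, ← hc₂] at hB₂ν
  rw [hR₃, ← hc₂] at hB₃ν
  rw [hR₁] at hB₁s hB₁m
  rw [hR₂] at hB₂s hB₂m
  rw [hR₃] at hB₃s hB₃m
  have htd := hTD K L G B₁ B₂ B₃ _ _ _ _ _ _ hGfin hGb hB₁L hB₂L hB₃L hB₁0 hB₂0 hB₃0
    hB₁N hB₂N hB₃N hB₁ν hB₂ν hB₃ν hB₁m hB₂m
  -- the sum over the triples
  have hP0 : 0 < P := by linarith
  have hcs : 0 ≤ C₃ * Real.sqrt (dK K) := mul_nonneg hC₃ (by linarith)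
  have hM0 : 0 ≤ DD L y * PP m := by linarith
  have hc4 : 0 ≤ C₃ * Real.sqrt (dK K) * (k₁ * (DD L y * PP m) * P ^ (-(1 / 2) : ℝ) +
      k₂ * P ^ (1 / 2 : ℝ)) := by positivity
  have hterm : ∀ g₁ ∈ nd B₁, ∀ g₂ ∈ nd B₂, ∀ g₃ ∈ nd B₃,
      ‖∑' x : {x : K // x ∈ L}, dif g₃ (dif g₂ (dif g₁ G)) x‖ ≤
      C₃ * Real.sqrt (dK K) * (k₁ * (DD L y * PP m) * P ^ (-(1 / 2) : ℝ) +
        k₂ * P ^ (1 / 2 : ℝ)) *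
        (Wt m θ₁ y ω g₁ * (Wt m θ₂ y ω g₂ * Wt m θ₃ y ω g₃)) := by
    intro g₁ h₁ g₂ h₂ g₃ h₃
    obtain ⟨hg₁0, hg₁⟩ := hB₁d g₁ h₁
    obtain ⟨hg₂0, hg₂⟩ := hB₂d g₂ h₂
    obtain ⟨hg₃0, hg₃⟩ := hB₃d g₃ h₃
    rw [hG, dif3 r (pF F y ω) g₁ g₂ g₃]
    have hle : ∀ θ : ℝ, 0 ≤ θ → ∀ v, m v ^ (1 - θ) ≤ m v := fun θ hθ v => by
      have h1 := Real.rpow_le_rpow_of_exponent_le (hm' v) (by linarith : 1 - θ ≤ 1)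
      rwa [Real.rpow_one] at h1
    have hsmall : ∀ v, t v = true → ‖wv v g₁ y ω‖ ≤ 1 / 2000 * ‖Λ v‖ ∧
        ‖wv v g₂ y ω‖ ≤ 1 / 2000 * ‖Λ v‖ ∧ ‖wv v g₃ y ω‖ ≤ 1 / 2000 * ‖Λ v‖ := by
      intro v hv
      have hMv : ‖Λ v‖ = m v := by rw [hmdef]; simp [Mt, hv]
      rw [hMv]
      have l1 := hle θ₁ hθ₁ v
      have l2 := hle θ₂ hθ₂ v
      have l3 := hle θ₃ hθ₃ v
      have l4 := hg₁ v
      have l5 := hg₂ v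
      have l6 := hg₃ v
      refine ⟨by linarith, by linarith, by linarith⟩
    refine (H3 K hK L y ω t Λ a g F hL hω hF g₁ g₂ g₃ hg₁0 hg₂0 hg₃0 hsmall).trans ?_
    have hb₁ : ∀ v, ‖wv v g₁ y ω‖ ≤ 1 / 2000 * Mt (t v) (Λ v) ^ (1 - θ₁) := fun v => by
      have h1 := hg₁ v
      rw [hmdef] at h1
      exact h1
    have hb₂ : ∀ v, ‖wv v g₂ y ω‖ ≤ 1 / 2000 * Mt (t v) (Λ v) ^ (1 - θ₂) := fun v => by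
      have h1 := hg₂ v
      rw [hmdef] at h1
      exact h1
    have hb₃ : ∀ v, ‖wv v g₃ y ω‖ ≤ 1 / 2000 * Mt (t v) (Λ v) ^ (1 - θ₃) := fun v => by
      have h1 := hg₃ v
      rw [hmdef] at h1
      exact h1
    obtain ⟨hQ1, hQ2⟩ := Q_bounds hK hm hθ (b₁ := fun v => wv v g₁ y ω)
      (b₂ := fun v => wv v g₂ y ω) (b₃ := fun v => wv v g₃ y ω) hb₁ hb₂ hb₃
    have hu : ∀ (θ : ℝ) (x : K), x ≠ 0 → ∀ v,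
        0 < ‖wv v x y ω‖ / (1 / 2000 * Mt (t v) (Λ v) ^ (1 - θ)) := fun θ x hx v =>
      div_pos (norm_wv_pos hω hx) (mul_pos (by norm_num)
        (Real.rpow_pos_of_pos (by linarith [hm v]) _))
    have hQ0 : 0 < PP (fun v => 1 + Ph (t v) (Λ v) (wv v g₁ y ω) (wv v g₂ y ω)
        (wv v g₃ y ω)) := by
      refine PP_pos fun v => ?_
      have : 0 ≤ Ph (t v) (Λ v) (wv v g₁ y ω) (wv v g₂ y ω) (wv v g₃ y ω) := by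
        unfold Ph
        split_ifs
        · positivity
        · exact le_rfl
      linarith
    have hW : ∀ (θ : ℝ) (x : K), x ≠ 0 → Wt m θ y ω x =
        PP (fun v => ‖wv v x y ω‖ / (1 / 2000 * Mt (t v) (Λ v) ^ (1 - θ))) ^ (-(1 / 2) : ℝ) := by
      intro θ x hx
      rw [PP_mhalf fun v => (hu θ x hx v).le, hmdef]
      rfl
    have w₁ := one_le_Wt hm' hω hg₁0 hg₁
    have w₂ := one_le_Wt hm' hω hg₂0 hg₂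
    have w₃ := one_le_Wt hm' hω hg₃0 hg₃
    have hmd : PP (fun v => Mt (t v) (Λ v)) = PP m := by rw [hmdef]
    rw [hmd] at hQ1 hQ2 ⊢
    rw [← hPe] at hQ1 hQ2
    rw [hW θ₁ g₁ hg₁0] at w₁ ⊢
    rw [hW θ₂ g₂ hg₂0] at w₂ ⊢
    rw [hW θ₃ g₃ hg₃0] at w₃ ⊢
    rw [hk₁, hk₂]
    exact term_num hQ0 hP0 (by positivity) (by positivity) (PP_pos (hu θ₁ g₁ hg₁0))
      (PP_pos (hu θ₂ g₂ hg₂0)) (PP_pos (hu θ₃ g₃ hg₃0)) hM0 hcs hQ1 hQ2 w₁ w₂ w₃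
  have hT := triple_sum hc4
    (fun x hx => zero_le_one.trans (one_le_Wt hm' hω (hB₁d x hx).1 (hB₁d x hx).2))
    (fun x hx => zero_le_one.trans (one_le_Wt hm' hω (hB₂d x hx).1 (hB₂d x hx).2))
    (fun x hx => zero_le_one.trans (one_le_Wt hm' hω (hB₃d x hx).1 (hB₃d x hx).2))
    hterm hB₁s hB₂s hB₃s
  have hR0 : 0 < R := by linarith
  have hR₁0 : 0 < R ^ (1 / 4 : ℝ) := Real.rpow_pos_of_pos hR0 _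
  have hR₂0 : 0 < R ^ (1 / 2 : ℝ) := Real.rpow_pos_of_pos hR0 _
  have hR₁4 : (R ^ (1 / 4 : ℝ)) ^ 4 = R := by
    rw [← Real.rpow_natCast, ← Real.rpow_mul hR0.le]
    norm_num
  have hR₂2 : (R ^ (1 / 2 : ℝ)) ^ 2 = R := by
    rw [← Real.rpow_natCast, ← Real.rpow_mul hR0.le]
    norm_num
  have hp₁0 : 0 ≤ P ^ (-(1 / 2) : ℝ) := Real.rpow_nonneg hP0.le _
  have hp₂0 : 0 ≤ P ^ (1 / 2 : ℝ) := Real.rpow_nonneg hP0.le _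
  have hT' : ∑ g₁ ∈ nd B₁, ∑ g₂ ∈ nd B₂, ∑ g₃ ∈ nd B₃,
      ‖∑' x : {x : K // x ∈ L}, dif g₃ (dif g₂ (dif g₁ G)) x‖ ≤
      C₃ * Real.sqrt (dK K) * (CD ^ 3 * (R ^ (1 / 4 : ℝ) * R ^ (1 / 2 : ℝ) * R)) *
        (k₁ * (DD L y * PP m) * P ^ (-(1 / 2) : ℝ) + k₂ * P ^ (1 / 2 : ℝ)) := by
    refine hT.trans (le_of_eq ?_)
    ring
  have hnum := numbers hM1 hs1 hR hR₁0 hR₂0 hR₁4 hR₂2 hc₂0 hCD0 hCN0 hC₃ hk₁0 hk₂0 hp₁0 hp₂0 hT'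
  have hall := htd.trans hnum
  rw [← hE, ← mul_pow] at hall
  have hres := hfinal (E * Real.sqrt (dK K)) _ (by positivity) (norm_nonneg _) hall
  refine hres.trans ?_
  have h4 : E * Real.sqrt (dK K) * (3 * (Z₁ + Z₂)) ≤
      E * Real.sqrt (dK K) * (3 * (1 + Z₁ + Z₂)) :=
    mul_le_mul_of_nonneg_left (by linarith) (by positivity)
  have h5 : (2 * (CU * 3 ^ n) + 3 * E) * Real.sqrt (dK K) * (1 + Z₁ + Z₂) =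
      E * Real.sqrt (dK K) * (3 * (1 + Z₁ + Z₂)) +
        2 * (CU * 3 ^ n) * Real.sqrt (dK K) * (1 + Z₁ + Z₂) := by ring
  have h6 : 0 ≤ 2 * (CU * 3 ^ n) * Real.sqrt (dK K) * (1 + Z₁ + Z₂) := by positivity
  rw [h5]
  linarith

end Pool.Agent.H63.SWL.GD
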