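import Pool.Agent.H63.SWL.Common
import Pool.Agent.H31.SW.Tools

/-!
# Module GD of the board swl_modules, part a: local data, characters, numbers
-/

set_option autoImplicit false
set_option linter.unusedSectionVars false

open NumberField NumberField.InfinitePlace Set

namespace Pool.Agent.H63.SWL.GD

open Pool.Agent.H25.HK Pool.Agent.H31.SW Pool.Agent.H63.SWL Pool.Agent.H23.LB
open Pool.Agent.H29.DW (dg Rl wv Pos rv wv_add)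

/-! ### Local data -/

/-- the centre of the support -/
noncomputable def cc (t : Bool) (Λ g : ℂ) : ℂ := if t then Λ else g

theorem one_le_Mt {N : ℕ} {r t : Bool} {Λ a g : ℂ} {F : ℂ → ℂ} (h : LDat N r t Λ a g F) :
    1 ≤ Mt t Λ := by
  cases t
  · simp [Mt]
  · simpa [Mt] using (h.one rfl).1

theorem norm_F {N : ℕ} {r t : Bool} {Λ a g : ℂ} {F : ℂ → ℂ} (h : LDat N r t Λ a g F) (z : ℂ) :
    ‖F z‖ ≤ 1 := by
  cases t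
  · exact DS.norm_le zero_le_one (h.two rfl) z
  · obtain ⟨-, -, -, -, -, A, hA, rfl⟩ := h.one rfl
    unfold FT1
    rw [norm_mul, norm_EE, mul_one]
    exact DS.norm_le zero_le_one hA _

theorem supp_F {N : ℕ} {r t : Bool} {Λ a g : ℂ} {F : ℂ → ℂ} (h : LDat N r t Λ a g F) {z : ℂ}
    (hz : F z ≠ 0) : ‖z - cc t Λ g‖ ≤ 2 * Mt t Λ := by
  cases t
  · have h1 : ‖z - g‖ ≤ 2 := by
      by_contra h2
      exact hz (DS.eq_zero (h.two rfl) (not_le.1 h2))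
    simpa [cc, Mt] using h1
  · obtain ⟨hΛ, -, -, -, -, A, hA, rfl⟩ := h.one rfl
    have hΛ0 : Λ ≠ 0 := by
      intro h0
      rw [h0, norm_zero] at hΛ
      linarith
    have h1 : ‖z / Λ - 1‖ ≤ 1 / 500 := by
      by_contra h2
      apply hz
      unfold FT1
      rw [DS.eq_zero hA (not_le.1 h2), zero_mul]
    have h3 : z - Λ = (z / Λ - 1) * Λ := by field_simp
    simp only [cc, Mt, if_true]
    rw [h3, norm_mul]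
    exact mul_le_mul_of_nonneg_right (h1.trans (by norm_num)) (norm_nonneg _)

/-! ### The character -/

variable {K : Type} [Field K] [NumberField K]

theorem norm_ca (r x : K) : ‖ca K r x‖ = 1 := by
  unfold ca
  have h1 : (2 * Real.pi * Complex.I * ((Algebra.trace ℚ K (r * x) : ℚ) : ℂ)) =
      ((2 * Real.pi * ((Algebra.trace ℚ K (r * x) : ℚ) : ℝ) : ℝ) : ℂ) * Complex.I := by
    push_cast
    ring
  rw [h1]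
  exact Complex.norm_exp_ofReal_mul_I _

theorem ca_add (r x y : K) : ca K r (x + y) = ca K r x * ca K r y := by
  unfold ca
  rw [← Complex.exp_add, mul_add, map_add]
  congr 1
  push_cast
  ring

theorem mul_conj_one {z : ℂ} (h : ‖z‖ = 1) : z * (starRingEnd ℂ) z = 1 := by
  rw [Complex.mul_conj, Complex.normSq_eq_norm_sq, h]
  norm_num

theorem dif_char {u G : K → ℂ} (hu : ∀ x, ‖u x‖ = 1) (hadd : ∀ x y, u (x + y) = u x * u y)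
    (g : K) : dif g (fun x => u x * G x) = fun x => u g * dif g G x := by
  funext x
  unfold dif
  simp only [map_mul]
  rw [hadd]
  have h1 := mul_conj_one (hu x)
  linear_combination (u g * G (x + g) * (starRingEnd ℂ) (G x)) * h1

theorem dif_const {c : ℂ} (hc : ‖c‖ = 1) (G : K → ℂ) (g : K) :
    dif g (fun x => c * G x) = dif g G := by
  funext x
  unfold dif
  simp only [map_mul]
  have h1 := mul_conj_one hc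
  linear_combination (G (x + g) * (starRingEnd ℂ) (G x)) * h1

theorem dif3 (r : K) (G : K → ℂ) (g₁ g₂ g₃ : K) :
    dif g₃ (dif g₂ (dif g₁ (fun x => ca K r x * G x))) = dif g₃ (dif g₂ (dif g₁ G)) := by
  rw [dif_char (norm_ca r) (ca_add r) g₁, dif_const (norm_ca r g₁)]

/-! ### The numbers -/

theorem num_q {c₂ M s R₁ CD : ℝ} (hR₁ : 0 < R₁) :
    c₂ * M * s / R₁ * (CD * R₁) = c₂ * CD * M * s := by
  rw [div_mul_eq_mul_div, div_eq_iff hR₁.ne']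
  ring

theorem num_1 {c₂ M s R R₁ CN : ℝ} (h1 : R₁ ^ 4 = R) :
    8 * (c₂ * M * s / R₁) ^ 4 * (2 * CN * M) ^ 4 =
      8 * c₂ ^ 4 * (2 * CN) ^ 4 * s ^ 4 * (M ^ 8 * R⁻¹) := by
  rw [div_pow, h1, div_eq_mul_inv]
  generalize R⁻¹ = ρ
  ring

theorem num_2 {c₂ M s R R₁ R₂ CD CN : ℝ} (hR₁ : 0 < R₁) (h2 : R₂ ^ 2 = R) :
    16 * (c₂ * M * s / R₁ * (CD * R₁)) ^ 4 * (c₂ * M * s / R₂) ^ 2 * (2 * CN * M) ^ 2 =
      16 * (c₂ * CD) ^ 4 * c₂ ^ 2 * (2 * CN) ^ 2 * s ^ 6 * (M ^ 8 * R⁻¹) := by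
  rw [num_q hR₁, div_pow, h2, div_eq_mul_inv]
  generalize R⁻¹ = ρ
  ring

theorem num_3 {c₂ M s R R₁ R₂ CD CN : ℝ} (hR₁ : 0 < R₁) (hR₂ : 0 < R₂) :
    16 * (c₂ * M * s / R₁ * (CD * R₁)) ^ 4 * (c₂ * M * s / R₂ * (CD * R₂)) ^ 2 *
      (c₂ * M * s / R) * (2 * CN * M) =
      16 * (c₂ * CD) ^ 6 * c₂ * (2 * CN) * s ^ 7 * (M ^ 8 * R⁻¹) := by
  rw [num_q hR₁, num_q hR₂, div_eq_mul_inv]
  generalize R⁻¹ = ρ
  ring

theorem num_x {z R₁ R₂ R : ℝ} (hR₁ : 0 < R₁) (hR₂ : 0 < R₂) (hR : 0 < R) :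
    (z / R₁) * (z / R₂) * (z / R) * (R₁ * R₂ * R) = z ^ 3 := by
  have z1 : z / R₁ * R₁ = z := div_mul_cancel₀ _ hR₁.ne'
  have z2 : z / R₂ * R₂ = z := div_mul_cancel₀ _ hR₂.ne'
  have z3 : z / R * R = z := div_mul_cancel₀ _ hR.ne'
  calc (z / R₁) * (z / R₂) * (z / R) * (R₁ * R₂ * R) =
        (z / R₁ * R₁) * (z / R₂ * R₂) * (z / R * R) := by ring
    _ = _ := by rw [z1, z2, z3]; ring

theorem num_4 {M s R R₁ R₂ c₂ CD C₃ k₁ k₂ T p₁ p₂ : ℝ} (hM : 1 ≤ M) (hs : 1 ≤ s)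
    (hR : 0 < R) (hR₁ : 0 < R₁) (hR₂ : 0 < R₂)
    (hc₂ : 0 ≤ c₂) (hCD : 0 ≤ CD)
    (hT : T ≤ C₃ * s * (CD ^ 3 * (R₁ * R₂ * R)) * (k₁ * M * p₁ + k₂ * p₂)) :
    16 * (c₂ * M * s / R₁ * (CD * R₁)) ^ 3 * (c₂ * M * s / R₂ * (CD * R₂)) *
      ((c₂ * M * s / R₁) * (c₂ * M * s / R₂) * (c₂ * M * s / R)) * T ≤
      16 * (c₂ * CD) ^ 4 * c₂ ^ 3 * C₃ * CD ^ 3 * s ^ 8 *
        (k₁ * (M ^ 8 * p₁) + k₂ * (M ^ 7 * p₂)) := by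
  rw [num_q hR₁, num_q hR₂]
  have hx := num_x (z := c₂ * M * s) hR₁ hR₂ hR
  have n1 : 0 ≤ c₂ * M * s := by positivity
  have n2 : 0 ≤ c₂ * M * s / R₁ := div_nonneg n1 hR₁.le
  have n3 : 0 ≤ c₂ * M * s / R₂ := div_nonneg n1 hR₂.le
  have n4 : 0 ≤ c₂ * M * s / R := div_nonneg n1 hR.le
  have n5 : 0 ≤ c₂ * CD * M * s := by positivity
  generalize c₂ * M * s / R₁ = x₁ at *
  generalize c₂ * M * s / R₂ = x₂ at *
  generalize c₂ * M * s / R = x₃ at *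
  have n6 : 0 ≤ 16 * (c₂ * CD * M * s) ^ 3 * (c₂ * CD * M * s) * (x₁ * x₂ * x₃) := by
    refine mul_nonneg (mul_nonneg (mul_nonneg (by norm_num) (pow_nonneg n5 3)) n5) ?_
    exact mul_nonneg (mul_nonneg n2 n3) n4
  refine (mul_le_mul_of_nonneg_left hT n6).trans (le_of_eq ?_)
  have e : 16 * (c₂ * CD * M * s) ^ 3 * (c₂ * CD * M * s) * (x₁ * x₂ * x₃) *
      (C₃ * s * (CD ^ 3 * (R₁ * R₂ * R)) * (k₁ * M * p₁ + k₂ * p₂)) =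
      16 * (c₂ * CD * M * s) ^ 4 * C₃ * s * CD ^ 3 * (k₁ * M * p₁ + k₂ * p₂) *
      (x₁ * x₂ * x₃ * (R₁ * R₂ * R)) := by ring
  rw [e, hx]
  ring

theorem num_5 {A a₁ a₂ a₃ a₄ U u w₁ w₂ k₁ k₂ s : ℝ} (hs : 1 ≤ s) (p1 : 0 ≤ a₁) (p2 : 0 ≤ a₂)
    (p3 : 0 ≤ a₃) (p4 : 0 ≤ a₄) (hk₁ : 0 ≤ k₁) (hk₂ : 0 ≤ k₂) (hu : 0 ≤ u) (hw₁ : 0 ≤ w₁)
    (hw₂ : 0 ≤ w₂) (hU : U = u + w₁ + w₂) (hA : A = a₁ + a₂ + a₃ + a₄ * (k₁ + k₂)) :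
    a₁ * s ^ 4 * u + a₂ * s ^ 6 * u + a₃ * s ^ 7 * u + a₄ * s ^ 8 * (k₁ * w₁ + k₂ * w₂) ≤
      (1 + A) ^ 8 * s ^ 8 * U := by
  have hs0 : 0 < s := by linarith
  have hA0 : 0 ≤ A := by
    have := mul_nonneg p4 (add_nonneg hk₁ hk₂)
    linarith
  have hA8 : A ≤ (1 + A) ^ 8 := by
    have h3 : 1 + A ≤ (1 + A) ^ 8 := le_self_pow₀ (by linarith) (by norm_num)
    linarith
  have hU0 : 0 ≤ U := by linarith
  have s4 : s ^ 4 ≤ s ^ 8 := pow_le_pow_right₀ hs (by norm_num)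
  have s6 : s ^ 6 ≤ s ^ 8 := pow_le_pow_right₀ hs (by norm_num)
  have s7 : s ^ 7 ≤ s ^ 8 := pow_le_pow_right₀ hs (by norm_num)
  have s8 : 0 ≤ s ^ 8 := pow_nonneg hs0.le 8
  generalize s ^ 8 = t8 at *
  generalize s ^ 4 = t4 at *
  generalize s ^ 6 = t6 at *
  generalize s ^ 7 = t7 at *
  generalize (1 + A) ^ 8 = B at *
  have hu1 : u ≤ U := by linarith
  have f1 : a₁ * t4 * u ≤ a₁ * t8 * U :=
    mul_le_mul (mul_le_mul_of_nonneg_left s4 p1) hu1 hu (mul_nonneg p1 s8)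
  have f2 : a₂ * t6 * u ≤ a₂ * t8 * U :=
    mul_le_mul (mul_le_mul_of_nonneg_left s6 p2) hu1 hu (mul_nonneg p2 s8)
  have f3 : a₃ * t7 * u ≤ a₃ * t8 * U :=
    mul_le_mul (mul_le_mul_of_nonneg_left s7 p3) hu1 hu (mul_nonneg p3 s8)
  have f4 : a₄ * t8 * (k₁ * w₁ + k₂ * w₂) ≤ a₄ * t8 * ((k₁ + k₂) * U) := by
    refine mul_le_mul_of_nonneg_left ?_ (mul_nonneg p4 s8)
    have g1 : k₁ * w₁ ≤ k₁ * U := mul_le_mul_of_nonneg_left (by linarith) hk₁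
    have g2 : k₂ * w₂ ≤ k₂ * U := mul_le_mul_of_nonneg_left (by linarith) hk₂
    linarith
  have f5 : A * (t8 * U) ≤ B * (t8 * U) :=
    mul_le_mul_of_nonneg_right hA8 (mul_nonneg s8 hU0)
  have f6 : A * (t8 * U) = a₁ * t8 * U + a₂ * t8 * U + a₃ * t8 * U +
      a₄ * t8 * ((k₁ + k₂) * U) := by
    rw [hA]
    ring
  have f7 : B * t8 * U = B * (t8 * U) := by ring
  rw [f7]
  linarith

theorem numbers {M s R R₁ R₂ c₂ CD CN C₃ k₁ k₂ T p₁ p₂ : ℝ} (hM : 1 ≤ M) (hs : 1 ≤ s)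
    (hR : 1 ≤ R) (hR₁ : 0 < R₁) (hR₂ : 0 < R₂) (h1 : R₁ ^ 4 = R) (h2 : R₂ ^ 2 = R)
    (hc₂ : 0 ≤ c₂) (hCD : 0 ≤ CD) (hCN : 0 ≤ CN) (hC₃ : 0 ≤ C₃) (hk₁ : 0 ≤ k₁) (hk₂ : 0 ≤ k₂)
    (hp₁ : 0 ≤ p₁) (hp₂ : 0 ≤ p₂)
    (hT : T ≤ C₃ * s * (CD ^ 3 * (R₁ * R₂ * R)) * (k₁ * M * p₁ + k₂ * p₂)) :
    8 * (c₂ * M * s / R₁) ^ 4 * (2 * CN * M) ^ 4 +
      16 * (c₂ * M * s / R₁ * (CD * R₁)) ^ 4 * (c₂ * M * s / R₂) ^ 2 * (2 * CN * M) ^ 2 +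
      16 * (c₂ * M * s / R₁ * (CD * R₁)) ^ 4 * (c₂ * M * s / R₂ * (CD * R₂)) ^ 2 *
        (c₂ * M * s / R) * (2 * CN * M) +
      16 * (c₂ * M * s / R₁ * (CD * R₁)) ^ 3 * (c₂ * M * s / R₂ * (CD * R₂)) *
        ((c₂ * M * s / R₁) * (c₂ * M * s / R₂) * (c₂ * M * s / R)) * T ≤
    (1 + (8 * c₂ ^ 4 * (2 * CN) ^ 4 + 16 * (c₂ * CD) ^ 4 * c₂ ^ 2 * (2 * CN) ^ 2 +
      16 * (c₂ * CD) ^ 6 * c₂ * (2 * CN) +
      16 * (c₂ * CD) ^ 4 * c₂ ^ 3 * C₃ * CD ^ 3 * (k₁ + k₂))) ^ 8 * s ^ 8 *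
      (M ^ 8 * R⁻¹ + M ^ 8 * p₁ + M ^ 7 * p₂) := by
  have hR0 : 0 < R := by linarith
  have hM0 : 0 < M := by linarith
  have p1 : 0 ≤ 8 * c₂ ^ 4 * (2 * CN) ^ 4 := by positivity
  have p2 : 0 ≤ 16 * (c₂ * CD) ^ 4 * c₂ ^ 2 * (2 * CN) ^ 2 := by positivity
  have p3 : 0 ≤ 16 * (c₂ * CD) ^ 6 * c₂ * (2 * CN) := by positivity
  have p4 : 0 ≤ 16 * (c₂ * CD) ^ 4 * c₂ ^ 3 * C₃ * CD ^ 3 := by positivity
  have u1 : 0 ≤ M ^ 8 * R⁻¹ := by positivity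
  have u2 : 0 ≤ M ^ 8 * p₁ := by positivity
  have u3 : 0 ≤ M ^ 7 * p₂ := by positivity
  have e4 := num_4 hM hs hR0 hR₁ hR₂ hc₂ hCD hT
  have e5 := num_5 hs p1 p2 p3 p4 hk₁ hk₂ u1 u2 u3 rfl rfl
  rw [num_1 h1, num_2 hR₁ h2, num_3 hR₁ hR₂]
  exact (add_le_add le_rfl e4).trans e5

end Pool.Agent.H63.SWL.GD
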