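import Pool.Agent.H63.SWL.GDa

/-!
# Module GD of the board swl_modules, part b: the sets of shifts and the single terms
-/

set_option autoImplicit false
set_option linter.unusedSectionVars false

open NumberField NumberField.InfinitePlace Set

namespace Pool.Agent.H63.SWL.GD

open Pool.Agent.H25.HK Pool.Agent.H31.SW Pool.Agent.H63.SWL Pool.Agent.H23.LB
open Pool.Agent.H29.DW (dg Rl wv Pos rv wv_add)

variable {K : Type} [Field K] [NumberField K]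

/-- the weight of a difference -/
noncomputable def Wt (m : InfinitePlace K → ℝ) (θ : ℝ) (y : InfinitePlace K → ℝ)
    (ω : InfinitePlace K → ℂ) (x : K) : ℝ :=
  ∏ v : InfinitePlace K, (‖wv v x y ω‖ / (1 / 2000 * m v ^ (1 - θ))) ^ (-(v.mult : ℝ) / 2)

theorem one_le_Wt {m : InfinitePlace K → ℝ} (hm : ∀ v, 1 ≤ m v) {θ : ℝ}
    {y : InfinitePlace K → ℝ} {ω : InfinitePlace K → ℂ} (hω : Pos ω) {x : K} (hx : x ≠ 0)
    (h : ∀ v, ‖wv v x y ω‖ ≤ 1 / 2000 * m v ^ (1 - θ)) : 1 ≤ Wt m θ y ω x := by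
  unfold Wt
  have h6 : ∏ _v : InfinitePlace K, (1 : ℝ) ≤ ∏ v : InfinitePlace K,
      (‖wv v x y ω‖ / (1 / 2000 * m v ^ (1 - θ))) ^ (-(v.mult : ℝ) / 2) := by
    refine Finset.prod_le_prod (fun _ _ => zero_le_one) fun v _ => ?_
    have h0 : 0 < 1 / 2000 * m v ^ (1 - θ) :=
      mul_pos (by norm_num) (Real.rpow_pos_of_pos (by linarith [hm v]) _)
    refine Real.one_le_rpow_of_pos_of_le_one_of_nonpos
      (div_pos (norm_wv_pos hω hx) h0) ((div_le_one h0).2 (h v)) ?_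
    have : (0 : ℝ) ≤ (v.mult : ℝ) := Nat.cast_nonneg _
    linarith
  rwa [Finset.prod_const_one] at h6

theorem PP_mhalf {u : InfinitePlace K → ℝ} (h : ∀ v, 0 ≤ u v) :
    PP u ^ (-(1 / 2) : ℝ) = ∏ v : InfinitePlace K, u v ^ (-(v.mult : ℝ) / 2) := by
  rw [← PP_rpow h]
  unfold PP
  refine Finset.prod_congr rfl fun v _ => ?_
  rw [← Real.rpow_natCast, ← Real.rpow_mul (h v)]
  congr 1
  ring

open scoped Classical in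
/-- the sets of shifts -/
theorem shifts {n : ℕ} (hK : Module.finrank ℚ K = n) {L : FI K} (hL : L ≠ 0)
    {y : InfinitePlace K → ℝ} {ω : InfinitePlace K → ℂ} (hω : Pos ω)
    {m : InfinitePlace K → ℝ} (hm : ∀ v, 1 ≤ m v) {CU cL CD : ℝ} (hCU : 1 ≤ CU) (hcL : 0 < cL)
    (hCD : 1 ≤ CD)
    (HU : ∀ (c : InfinitePlace K → ℂ) (R : InfinitePlace K → ℝ), (∀ v, 0 ≤ R v) →
      {x : K | x ∈ L ∧ ∀ v, ‖wv v x y ω - c v‖ ≤ R v}.Finite ∧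
      ({x : K | x ∈ L ∧ ∀ v, ‖wv v x y ω - c v‖ ≤ R v}.ncard : ℝ) ≤ CU * (1 + DD L y * PP R))
    (HL : ∀ (R : InfinitePlace K → ℝ), (∀ v, 0 < R v) →
      cL * (DD L y * PP R) / Real.sqrt (dK K) ≤
        ({x : K | x ∈ L ∧ ∀ v, ‖wv v x y ω‖ ≤ R v}.ncard : ℝ))
    (HD : ∀ (R : InfinitePlace K → ℝ) (X : Finset K), (∀ v, 0 < R v) →
      (∀ x ∈ X, x ∈ L ∧ x ≠ 0 ∧ ∀ v, ‖wv v x y ω‖ ≤ R v) →
      ∑ x ∈ X, ∏ v : InfinitePlace K, (‖wv v x y ω‖ / R v) ^ (-(v.mult : ℝ) / 2) ≤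
        CD * (DD L y * PP R))
    {F : K → ℂ} {c : InfinitePlace K → ℂ}
    (hF : ∀ x, F x ≠ 0 → ∀ v, ‖wv v x y ω - c v‖ ≤ 2 * m v)
    (hM : 1 ≤ DD L y * PP m) {θ : ℝ} (hθ : 0 ≤ θ) :
    ∃ B : Finset K, (∀ b ∈ B, b ∈ L) ∧ 0 ∈ B ∧
      ({x : K | x ∈ L ∧ ∃ b ∈ B, F (x + b) ≠ 0}.ncard : ℝ) ≤
        2 * (CU * 3 ^ n) * (DD L y * PP m) ∧
      2 * (CU * 3 ^ n) * (DD L y * PP m) / (B.card : ℝ) ≤
        2 * (CU * 3 ^ n) / (cL * (1 / 4000) ^ n) * (DD L y * PP m) * Real.sqrt (dK K) /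
          (DD L y * PP m ^ (1 - θ)) ∧
      (∀ x ∈ nd B, x ≠ 0 ∧ ∀ v, ‖wv v x y ω‖ ≤ 1 / 2000 * m v ^ (1 - θ)) ∧
      ∑ x ∈ nd B, Wt m θ y ω x ≤ CD * (DD L y * PP m ^ (1 - θ)) ∧
      ((nd B).card : ℝ) ≤ CD * (DD L y * PP m ^ (1 - θ)) := by
  have hm0 : ∀ v, 0 < m v := fun v => by linarith [hm v]
  have hA0 : 0 < DD L y := DD_pos hL y
  have hPP0 : 0 < PP m := PP_pos hm0
  have hp0 : ∀ v, 0 < m v ^ (1 - θ) := fun v => Real.rpow_pos_of_pos (hm0 v) _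
  have hp1 : ∀ v, m v ^ (1 - θ) ≤ m v := fun v => by
    have h1 := Real.rpow_le_rpow_of_exponent_le (hm v) (by linarith : 1 - θ ≤ 1)
    rwa [Real.rpow_one] at h1
  have hE0 : 0 < PP m ^ (1 - θ) := Real.rpow_pos_of_pos hPP0 _
  have hρ0 : ∀ v, 0 < 1 / 4000 * m v ^ (1 - θ) := fun v => mul_pos (by norm_num) (hp0 v)
  have hρ0' : ∀ v, 0 < 1 / 2000 * m v ^ (1 - θ) := fun v => mul_pos (by norm_num) (hp0 v)
  have hPρ : PP (fun v => 1 / 4000 * m v ^ (1 - θ)) = (1 / 4000) ^ n * PP m ^ (1 - θ) := by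
    rw [PP_const_mul, hK, PP_rpow fun v => (hm0 v).le]
  have hPρ' : PP (fun v => 1 / 2000 * m v ^ (1 - θ)) = (1 / 2000) ^ n * PP m ^ (1 - θ) := by
    rw [PP_const_mul, hK, PP_rpow fun v => (hm0 v).le]
  have hBfin : {x : K | x ∈ L ∧ ∀ v, ‖wv v x y ω‖ ≤ 1 / 4000 * m v ^ (1 - θ)}.Finite := by
    have h1 := (HU (fun _ => 0) (fun v => 1 / 4000 * m v ^ (1 - θ)) fun v => (hρ0 v).le).1
    simpa only [sub_zero] using h1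
  have hmem : ∀ x, x ∈ hBfin.toFinset ↔ x ∈ L ∧ ∀ v, ‖wv v x y ω‖ ≤ 1 / 4000 * m v ^ (1 - θ) :=
    fun x => by
      rw [Set.Finite.mem_toFinset]
      rfl
  have h0B : (0 : K) ∈ hBfin.toFinset := by
    rw [hmem]
    refine ⟨zero_memL L, fun v => ?_⟩
    rw [Pool.Agent.H29.DW.wv_zero, norm_zero]
    exact (hρ0 v).le
  have hnd : ∀ x ∈ nd hBfin.toFinset, x ∈ L ∧ x ≠ 0 ∧
      ∀ v, ‖wv v x y ω‖ ≤ 1 / 2000 * m v ^ (1 - θ) := by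
    intro x hx
    unfold nd at hx
    obtain ⟨hx1, hx0⟩ := Finset.mem_filter.1 hx
    obtain ⟨q, hq, rfl⟩ := Finset.mem_image.1 hx1
    obtain ⟨hq1, hq2⟩ := Finset.mem_product.1 hq
    rw [hmem] at hq1 hq2
    refine ⟨sub_memL hq1.1 hq2.1, hx0, fun v => ?_⟩
    rw [wv_sub]
    have h1 := hq1.2 v
    have h2 := hq2.2 v
    refine (norm_sub_le _ _).trans ?_
    linarith
  have hsum : ∑ x ∈ nd hBfin.toFinset, Wt m θ y ω x ≤ CD * (DD L y * PP m ^ (1 - θ)) := by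
    refine (HD (fun v => 1 / 2000 * m v ^ (1 - θ)) (nd hBfin.toFinset) hρ0' hnd).trans ?_
    refine mul_le_mul_of_nonneg_left (mul_le_mul_of_nonneg_left ?_ hA0.le) (by linarith)
    rw [hPρ']
    exact mul_le_of_le_one_left hE0.le (pow_le_one₀ (by norm_num) (by norm_num))
  refine ⟨hBfin.toFinset, fun b hb => ((hmem b).1 hb).1, h0B, ?_, ?_, fun x hx => (hnd x hx).2,
    hsum, ?_⟩
  · -- the number of the shifted points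
    obtain ⟨hS2, hS2c⟩ := HU c (fun v => 3 * m v) fun v => by linarith [hm v]
    have h1 : {x : K | x ∈ L ∧ ∃ b ∈ hBfin.toFinset, F (x + b) ≠ 0} ⊆
        {x : K | x ∈ L ∧ ∀ v, ‖wv v x y ω - c v‖ ≤ 3 * m v} := by
      rintro x ⟨hx, b, hb, hne⟩
      refine ⟨hx, fun v => ?_⟩
      have h3 := hF _ hne v
      have h4 := ((hmem b).1 hb).2 v
      have h5 := hp1 v
      rw [wv_add] at h3
      have h7 : wv v x y ω - c v = (wv v x y ω + wv v b y ω - c v) - wv v b y ω := by ring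
      rw [h7]
      have h8 := hm v
      exact (norm_sub_le _ _).trans (by linarith)
    have h2 : ({x : K | x ∈ L ∧ ∃ b ∈ hBfin.toFinset, F (x + b) ≠ 0}.ncard : ℝ) ≤
        ({x : K | x ∈ L ∧ ∀ v, ‖wv v x y ω - c v‖ ≤ 3 * m v}.ncard : ℝ) := by
      exact_mod_cast Set.ncard_le_ncard h1 hS2
    refine h2.trans (hS2c.trans ?_)
    rw [PP_const_mul, hK]
    have h3 : (1 : ℝ) ≤ 3 ^ n := one_le_pow₀ (by norm_num)
    have h4 : 1 + DD L y * (3 ^ n * PP m) ≤ 2 * (3 ^ n * (DD L y * PP m)) := by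
      have h5 : 1 ≤ 3 ^ n * (DD L y * PP m) := one_le_mul_of_one_le_of_one_le h3 hM
      have h6 : DD L y * (3 ^ n * PP m) = 3 ^ n * (DD L y * PP m) := by ring
      rw [h6]
      linarith
    have h5 := mul_le_mul_of_nonneg_left h4 (by linarith : 0 ≤ CU)
    refine h5.trans (le_of_eq ?_)
    ring
  · -- the number of the shifts
    have hd0 : 0 < dK K := by linarith [one_le_dK (K := K)]
    have hsd : 0 < Real.sqrt (dK K) := Real.sqrt_pos.2 hd0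
    have hBpos : 0 < (hBfin.toFinset.card : ℝ) := by
      exact_mod_cast (Finset.card_pos.2 ⟨0, h0B⟩)
    have hBlow : cL * (1 / 4000) ^ n * (DD L y * PP m ^ (1 - θ)) / Real.sqrt (dK K) ≤
        (hBfin.toFinset.card : ℝ) := by
      have h1 := HL (fun v => 1 / 4000 * m v ^ (1 - θ)) hρ0
      rw [hPρ] at h1
      rw [← Set.ncard_eq_toFinset_card _ hBfin]
      refine le_trans (le_of_eq ?_) h1
      ring
    have hc1 : 0 < cL * (1 / 4000) ^ n := mul_pos hcL (by positivity)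
    have hR0 : 0 < DD L y * PP m ^ (1 - θ) := mul_pos hA0 hE0
    generalize cL * (1 / 4000) ^ n = c₁ at *
    generalize DD L y * PP m ^ (1 - θ) = R at *
    generalize (hBfin.toFinset.card : ℝ) = b at *
    generalize Real.sqrt (dK K) = s at *
    have hN0 : 0 ≤ 2 * (CU * 3 ^ n) * (DD L y * PP m) := by positivity
    rw [div_le_iff₀ hBpos]
    have h1 : 2 * (CU * 3 ^ n) / c₁ * (DD L y * PP m) * s / R * (c₁ * R / s) =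
        2 * (CU * 3 ^ n) * (DD L y * PP m) := by
      generalize 2 * (CU * 3 ^ n) = z₁
      generalize DD L y * PP m = z₂
      field_simp
    calc 2 * (CU * 3 ^ n) * (DD L y * PP m) =
          2 * (CU * 3 ^ n) / c₁ * (DD L y * PP m) * s / R * (c₁ * R / s) := h1.symm
      _ ≤ _ := by
          refine mul_le_mul_of_nonneg_left hBlow ?_
          positivity
  · -- the number of the differences
    have h5 : ∀ x ∈ nd hBfin.toFinset, (1 : ℝ) ≤ Wt m θ y ω x := fun x hx =>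
      one_le_Wt hm hω (hnd x hx).2.1 (hnd x hx).2.2
    have h7 := Finset.sum_le_sum h5
    rw [Finset.sum_const, nsmul_eq_mul, mul_one] at h7
    exact h7.trans hsum

/-- the bounds for the sizes of the phase -/
theorem Q_bounds {n : ℕ} (hK : Module.finrank ℚ K = n) {t : InfinitePlace K → Bool}
    {Λ : InfinitePlace K → ℂ} (hm : ∀ v, 1 ≤ Mt (t v) (Λ v)) {θ₁ θ₂ θ₃ : ℝ}
    (hθ : θ₁ + θ₂ + θ₃ ≤ 1) {b₁ b₂ b₃ : InfinitePlace K → ℂ}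
    (h1 : ∀ v, ‖b₁ v‖ ≤ 1 / 2000 * Mt (t v) (Λ v) ^ (1 - θ₁))
    (h2 : ∀ v, ‖b₂ v‖ ≤ 1 / 2000 * Mt (t v) (Λ v) ^ (1 - θ₂))
    (h3 : ∀ v, ‖b₃ v‖ ≤ 1 / 2000 * Mt (t v) (Λ v) ^ (1 - θ₃)) :
    ((1 / 2000 : ℝ) ^ 3) ^ n *
      (PP (fun v => ‖b₁ v‖ / (1 / 2000 * Mt (t v) (Λ v) ^ (1 - θ₁))) *
        PP (fun v => ‖b₂ v‖ / (1 / 2000 * Mt (t v) (Λ v) ^ (1 - θ₂))) *
        PP (fun v => ‖b₃ v‖ / (1 / 2000 * Mt (t v) (Λ v) ^ (1 - θ₃)))) *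
      PP (fun v => Mt (t v) (Λ v)) ^ (1 - θ₁ - θ₂ - θ₃) ≤
      PP (fun v => 1 + Ph (t v) (Λ v) (b₁ v) (b₂ v) (b₃ v)) ∧
    PP (fun v => 1 + Ph (t v) (Λ v) (b₁ v) (b₂ v) (b₃ v)) ≤
      2 ^ n * PP (fun v => Mt (t v) (Λ v)) ^ (1 - θ₁ - θ₂ - θ₃) := by
  have hm0 : ∀ v, 0 < Mt (t v) (Λ v) := fun v => by linarith [hm v]
  have hu : ∀ (b : InfinitePlace K → ℂ) (θ : ℝ),
      (∀ v, ‖b v‖ ≤ 1 / 2000 * Mt (t v) (Λ v) ^ (1 - θ)) → ∀ v,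
      0 ≤ ‖b v‖ / (1 / 2000 * Mt (t v) (Λ v) ^ (1 - θ)) ∧
      ‖b v‖ / (1 / 2000 * Mt (t v) (Λ v) ^ (1 - θ)) ≤ 1 ∧
      ‖b v‖ = ‖b v‖ / (1 / 2000 * Mt (t v) (Λ v) ^ (1 - θ)) *
        (1 / 2000 * Mt (t v) (Λ v) ^ (1 - θ)) := by
    intro b θ h v
    have h0 : 0 < 1 / 2000 * Mt (t v) (Λ v) ^ (1 - θ) :=
      mul_pos (by norm_num) (Real.rpow_pos_of_pos (hm0 v) _)
    exact ⟨div_nonneg (norm_nonneg _) h0.le, (div_le_one h0).2 (h v),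
      (div_mul_cancel₀ _ h0.ne').symm⟩
  -- the size of the phase
  have hPh : ∀ v, t v = true → Ph (t v) (Λ v) (b₁ v) (b₂ v) (b₃ v) =
      (1 / 2000 : ℝ) ^ 3 * (‖b₁ v‖ / (1 / 2000 * Mt (t v) (Λ v) ^ (1 - θ₁)) *
        (‖b₂ v‖ / (1 / 2000 * Mt (t v) (Λ v) ^ (1 - θ₂))) *
        (‖b₃ v‖ / (1 / 2000 * Mt (t v) (Λ v) ^ (1 - θ₃)))) *
        Mt (t v) (Λ v) ^ (1 - θ₁ - θ₂ - θ₃) := by
    intro v hv
    have e1 := (hu b₁ θ₁ h1 v).2.2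
    have e2 := (hu b₂ θ₂ h2 v).2.2
    have e3 := (hu b₃ θ₃ h3 v).2.2
    have hM : ‖Λ v‖ = Mt (t v) (Λ v) := by simp [Mt, hv]
    have h5 : Ph (t v) (Λ v) (b₁ v) (b₂ v) (b₃ v) =
        ‖b₁ v‖ * ‖b₂ v‖ * ‖b₃ v‖ / ‖Λ v‖ ^ 2 := by simp [Ph, hv]
    rw [h5, hM]
    generalize ‖b₁ v‖ / (1 / 2000 * Mt (t v) (Λ v) ^ (1 - θ₁)) = u₁ at *
    generalize ‖b₂ v‖ / (1 / 2000 * Mt (t v) (Λ v) ^ (1 - θ₂)) = u₂ at *
    generalize ‖b₃ v‖ / (1 / 2000 * Mt (t v) (Λ v) ^ (1 - θ₃)) = u₃ at *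
    rw [e1, e2, e3]
    have h6 : Mt (t v) (Λ v) ^ (1 - θ₁ - θ₂ - θ₃) * Mt (t v) (Λ v) ^ 2 =
        Mt (t v) (Λ v) ^ (1 - θ₁) * Mt (t v) (Λ v) ^ (1 - θ₂) * Mt (t v) (Λ v) ^ (1 - θ₃) := by
      rw [← Real.rpow_natCast, ← Real.rpow_add (hm0 v), ← Real.rpow_add (hm0 v),
        ← Real.rpow_add (hm0 v)]
      congr 1
      push_cast
      ring
    have h7 : 0 < Mt (t v) (Λ v) ^ 2 := pow_pos (hm0 v) 2
    rw [div_eq_iff h7.ne']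
    generalize Mt (t v) (Λ v) ^ (1 - θ₁ - θ₂ - θ₃) = q at *
    generalize Mt (t v) (Λ v) ^ (1 - θ₁) = q₁ at *
    generalize Mt (t v) (Λ v) ^ (1 - θ₂) = q₂ at *
    generalize Mt (t v) (Λ v) ^ (1 - θ₃) = q₃ at *
    calc u₁ * (1 / 2000 * q₁) * (u₂ * (1 / 2000 * q₂)) * (u₃ * (1 / 2000 * q₃)) =
          (1 / 2000 : ℝ) ^ 3 * (u₁ * u₂ * u₃) * (q₁ * q₂ * q₃) := by ring
      _ = _ := by rw [← h6]; ring
  have hq1 : ∀ v, 1 ≤ Mt (t v) (Λ v) ^ (1 - θ₁ - θ₂ - θ₃) := fun v =>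
    Real.one_le_rpow (hm v) (by linarith)
  have hPhb : ∀ v, (1 / 2000 : ℝ) ^ 3 * (‖b₁ v‖ / (1 / 2000 * Mt (t v) (Λ v) ^ (1 - θ₁)) *
        (‖b₂ v‖ / (1 / 2000 * Mt (t v) (Λ v) ^ (1 - θ₂))) *
        (‖b₃ v‖ / (1 / 2000 * Mt (t v) (Λ v) ^ (1 - θ₃)))) *
        Mt (t v) (Λ v) ^ (1 - θ₁ - θ₂ - θ₃) ≤ 1 + Ph (t v) (Λ v) (b₁ v) (b₂ v) (b₃ v) ∧
      1 + Ph (t v) (Λ v) (b₁ v) (b₂ v) (b₃ v) ≤ 2 * Mt (t v) (Λ v) ^ (1 - θ₁ - θ₂ - θ₃) ∧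
      0 ≤ (1 / 2000 : ℝ) ^ 3 * (‖b₁ v‖ / (1 / 2000 * Mt (t v) (Λ v) ^ (1 - θ₁)) *
        (‖b₂ v‖ / (1 / 2000 * Mt (t v) (Λ v) ^ (1 - θ₂))) *
        (‖b₃ v‖ / (1 / 2000 * Mt (t v) (Λ v) ^ (1 - θ₃)))) *
        Mt (t v) (Λ v) ^ (1 - θ₁ - θ₂ - θ₃) := by
    intro v
    have hPhv := hPh v
    obtain ⟨a1, a2, -⟩ := hu b₁ θ₁ h1 v
    obtain ⟨a3, a4, -⟩ := hu b₂ θ₂ h2 v
    obtain ⟨a5, a6, -⟩ := hu b₃ θ₃ h3 v
    have hqv := hq1 v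
    have hMf : t v = false → Mt (t v) (Λ v) ^ (1 - θ₁ - θ₂ - θ₃) = 1 := by
      intro hv
      simp [Mt, hv]
    have hPf : t v = false → Ph (t v) (Λ v) (b₁ v) (b₂ v) (b₃ v) = 0 := by
      intro hv
      simp [Ph, hv]
    generalize ‖b₁ v‖ / (1 / 2000 * Mt (t v) (Λ v) ^ (1 - θ₁)) = u₁ at *
    generalize ‖b₂ v‖ / (1 / 2000 * Mt (t v) (Λ v) ^ (1 - θ₂)) = u₂ at *
    generalize ‖b₃ v‖ / (1 / 2000 * Mt (t v) (Λ v) ^ (1 - θ₃)) = u₃ at *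
    generalize Mt (t v) (Λ v) ^ (1 - θ₁ - θ₂ - θ₃) = q at *
    generalize Ph (t v) (Λ v) (b₁ v) (b₂ v) (b₃ v) = ph at *
    have hq0 : 0 ≤ q := by linarith
    have hu0 : 0 ≤ u₁ * u₂ * u₃ := mul_nonneg (mul_nonneg a1 a3) a5
    have hu1 : u₁ * u₂ * u₃ ≤ 1 := by
      have h5 : u₁ * u₂ ≤ 1 := mul_le_one₀ a2 a3 a4
      exact mul_le_one₀ h5 a5 a6
    have hk : (1 / 2000 : ℝ) ^ 3 * (u₁ * u₂ * u₃) ≤ 1 :=
      mul_le_one₀ (by norm_num) hu0 hu1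
    have hk0 : 0 ≤ (1 / 2000 : ℝ) ^ 3 * (u₁ * u₂ * u₃) := mul_nonneg (by norm_num) hu0
    have hx1 : (1 / 2000 : ℝ) ^ 3 * (u₁ * u₂ * u₃) * q ≤ q := mul_le_of_le_one_left hq0 hk
    have hx0 : 0 ≤ (1 / 2000 : ℝ) ^ 3 * (u₁ * u₂ * u₃) * q := mul_nonneg hk0 hq0
    refine ⟨?_, ?_, hx0⟩
    · rcases Bool.eq_false_or_eq_true (t v) with hv | hv
      · rw [hPhv hv]
        linarith
      · rw [hPf hv]
        rw [hMf hv] at hx1 ⊢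
        linarith
    · rcases Bool.eq_false_or_eq_true (t v) with hv | hv
      · rw [hPhv hv]
        linarith
      · rw [hPf hv]
        linarith
  constructor
  · have e1 : PP (fun v => (1 / 2000 : ℝ) ^ 3 *
        (‖b₁ v‖ / (1 / 2000 * Mt (t v) (Λ v) ^ (1 - θ₁)) *
        (‖b₂ v‖ / (1 / 2000 * Mt (t v) (Λ v) ^ (1 - θ₂))) *
        (‖b₃ v‖ / (1 / 2000 * Mt (t v) (Λ v) ^ (1 - θ₃)))) *
        Mt (t v) (Λ v) ^ (1 - θ₁ - θ₂ - θ₃)) =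
        ((1 / 2000 : ℝ) ^ 3) ^ n *
      (PP (fun v => ‖b₁ v‖ / (1 / 2000 * Mt (t v) (Λ v) ^ (1 - θ₁))) *
        PP (fun v => ‖b₂ v‖ / (1 / 2000 * Mt (t v) (Λ v) ^ (1 - θ₂))) *
        PP (fun v => ‖b₃ v‖ / (1 / 2000 * Mt (t v) (Λ v) ^ (1 - θ₃)))) *
      PP (fun v => Mt (t v) (Λ v)) ^ (1 - θ₁ - θ₂ - θ₃) := by
      rw [PP_mul, PP_const_mul, PP_mul, PP_mul, hK, PP_rpow fun v => (hm0 v).le]
    rw [← e1]
    exact PP_mono (fun v => (hPhb v).2.2) fun v => (hPhb v).1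
  · have e1 : PP (fun v => 2 * Mt (t v) (Λ v) ^ (1 - θ₁ - θ₂ - θ₃)) =
        2 ^ n * PP (fun v => Mt (t v) (Λ v)) ^ (1 - θ₁ - θ₂ - θ₃) := by
      rw [PP_const_mul, hK, PP_rpow fun v => (hm0 v).le]
    rw [← e1]
    exact PP_mono (fun v => (hPhb v).2.2.trans (hPhb v).1) fun v => (hPhb v).2.1

end Pool.Agent.H63.SWL.GD
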